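import Pool.Agent.Helper85.REC.Stmts10
import Pool.Agent.Helper85.REC.IR2

/-!
# REC.ST_NF2: in rank two `FDat` occurs for finitely many `l` only   [helper34]
-/

set_option autoImplicit false
set_option maxHeartbeats 1600000

open scoped Classical
open NumberField Polynomial

namespace Pool.Agent.Helper34.REC

open Pool.Agent.Helper13.ZL (Pl q)
open _root_.REC MU

theorem nf_coeff {R : Type} [CommRing R] [Nontrivial R] (X : Matrix (Fin 2) (Fin 2) R) :
    X.charpoly.coeff 1 = - X.trace ∧ X.charpoly.coeff 0 = X.det := by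
  rw [Matrix.charpoly_fin_two]
  constructor
  · simp [coeff_C]
  · simp

theorem nf_rat {G : Type} [Group G] {l : ℕ} [Fact l.Prime]
    (r : G →* Matrix.GeneralLinearGroup (Fin 2) ℤ_[l]) (g : G) :
    (rat r g).trace = algebraMap ℤ_[l] ℚ_[l] (((r g : Matrix.GeneralLinearGroup (Fin 2) ℤ_[l]) :
      Matrix (Fin 2) (Fin 2) ℤ_[l]).trace) ∧
    (rat r g).det = algebraMap ℤ_[l] ℚ_[l] (((r g : Matrix.GeneralLinearGroup (Fin 2) ℤ_[l]) :
      Matrix (Fin 2) (Fin 2) ℤ_[l]).det) := by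
  rw [Matrix.trace_fin_two, Matrix.det_fin_two, Matrix.trace_fin_two, Matrix.det_fin_two,
    map_add, map_sub, map_mul, map_mul]
  exact ⟨rfl, rfl⟩

theorem nf_res {G : Type} [Group G] {l : ℕ} [Fact l.Prime]
    (r : G →* Matrix.GeneralLinearGroup (Fin 2) ℤ_[l]) (g : G) :
    (res r g).trace = PadicInt.toZMod (((r g : Matrix.GeneralLinearGroup (Fin 2) ℤ_[l]) :
      Matrix (Fin 2) (Fin 2) ℤ_[l]).trace) ∧
    (res r g).det = PadicInt.toZMod (((r g : Matrix.GeneralLinearGroup (Fin 2) ℤ_[l]) :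
      Matrix (Fin 2) (Fin 2) ℤ_[l]).det) := by
  rw [Matrix.trace_fin_two, Matrix.det_fin_two, Matrix.trace_fin_two, Matrix.det_fin_two,
    map_add, map_sub, map_mul, map_mul]
  exact ⟨rfl, rfl⟩

theorem nf_pow {A : Type} [CommMonoid A] (x y : A) (d : ℕ) (h : x ^ d = y ^ d) :
    x ^ (2 * d) = y ^ (2 * d) := by
  rw [mul_comm, pow_mul, pow_mul, h]

theorem nf_quad {k : Type} [CommRing k] (a b : k) :
    ((Polynomial.X - C a) * (Polynomial.X - C b) : k[X]).coeff 1 = -(a + b) ∧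
      ((Polynomial.X - C a) * (Polynomial.X - C b) : k[X]).coeff 0 = a * b := by
  have h1 : ((Polynomial.X - C a) * (Polynomial.X - C b) : k[X]) = Polynomial.X ^ 2 - C (a + b) * Polynomial.X + C (a * b) := by
    rw [map_add, map_mul]
    ring
  rw [h1]
  constructor
  · simp [coeff_C]
  · simp

/-- the sum and the product of the characters -/
theorem nf_tr {l : ℕ} [Fact l.Prime] {k : Type} [Field k] (κ : ZMod l →+* k)
    (A : Matrix (Fin 2) (Fin 2) (ZMod l)) (a b : k)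
    (h : A.charpoly.map κ = (Polynomial.X - C a) * (Polynomial.X - C b)) : κ A.trace = a + b ∧ κ A.det = a * b := by
  have h1 := congrArg (fun P : k[X] => P.coeff 1) h
  have h2 := congrArg (fun P : k[X] => P.coeff 0) h
  change (A.charpoly.map κ).coeff 1 = ((Polynomial.X - C a) * (Polynomial.X - C b)).coeff 1 at h1
  change (A.charpoly.map κ).coeff 0 = ((Polynomial.X - C a) * (Polynomial.X - C b)).coeff 0 at h2
  rw [coeff_map, (nf_coeff A).1, (nf_quad a b).1, map_neg, neg_inj] at h1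
  rw [coeff_map, (nf_coeff A).2, (nf_quad a b).2] at h2
  exact ⟨h1, h2⟩

/-- the roots of a polynomial of degree two -/
theorem nf_roots {k : Type} [Field k] {a b a' b' : k} {N : ℕ}
    (h : ((Polynomial.X - C a) * (Polynomial.X - C b) : k[X]) = (Polynomial.X - C a') * (Polynomial.X - C b')) (hN : a' ^ N = b' ^ N) :
    a ^ N = b ^ N := by
  have h1 := congrArg (fun P : k[X] => P.coeff 1) h
  have h2 := congrArg (fun P : k[X] => P.coeff 0) h
  change ((Polynomial.X - C a) * (Polynomial.X - C b)).coeff 1 = ((Polynomial.X - C a') * (Polynomial.X - C b')).coeff 1 at h1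
  change ((Polynomial.X - C a) * (Polynomial.X - C b)).coeff 0 = ((Polynomial.X - C a') * (Polynomial.X - C b')).coeff 0 at h2
  rw [(nf_quad a b).1, (nf_quad a' b').1, neg_inj] at h1
  rw [(nf_quad a b).2, (nf_quad a' b').2] at h2
  have h3 : (a - a') * (a - b') = 0 := by linear_combination a * h1 - h2
  rcases mul_eq_zero.1 h3 with h4 | h4
  · have h5 : a = a' := sub_eq_zero.1 h4
    have h6 : b = b' := by linear_combination h1 - h5
    rw [h5, h6, hN]
  · have h5 : a = b' := sub_eq_zero.1 h4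
    have h6 : b = a' := by linear_combination h1 - h5
    rw [h5, h6, hN]

/-- the exact relation for one root -/
theorem nf_rel {F : Type} [Field F] [NumberField F] {S : Finset ℕ} {w : ℕ} {h : Fin 2 → ℕ}
    (M : Mot F S 2 w h) (L : Type) [Field L] [NumberField L] (e : Fin 2 → (F →+* L) → ℕ)
    (he : RelF M L e) : Rel M L (e 0) := by
  obtain ⟨hperm, S', hSS', hrel⟩ := he
  refine ⟨?_, S', hSS', ?_⟩
  · intro τ
    obtain ⟨s, hs⟩ := hperm τ
    exact ⟨s 0, hs 0⟩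
  · intro v p 𝔓 j m σ x P h1 h2 h3 h4 h5 h6 h7 h8 h9 h10
    have h11 := hrel v p 𝔓 j m σ x P h1 h2 h3 h4 h5 h6 h7 h8 h9 h10
    have h12 := congrArg (Polynomial.eval (∏ τ : F →+* L, RingOfIntegers.mapRingHom τ x ^
      (e 0 τ * j))) h11
    rw [Polynomial.eval_prod, Finset.prod_eq_zero (Finset.mem_univ (0 : Fin 2)) (by
      rw [Polynomial.eval_sub, Polynomial.eval_X, Polynomial.eval_C, sub_self]),
      Polynomial.eval_map] at h12
    rw [Polynomial.aeval_def]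
    exact h12

/-- elements in infinitely many prime ideals -/
theorem nf_zero {L : Type} [Field L] [NumberField L] (z : 𝓞 L) {l : ℕ} [Fact l.Prime]
    {k : Type} [Field k] (κ : ZMod l →+* k) (θ : 𝓞 L →+* k) (hz : θ z = 0)
    (hl : Ideal.absNorm (Ideal.span {z}) < l) : z = 0 := by
  by_contra hz0
  have h1 : Ideal.absNorm (Ideal.span {z}) ≠ 0 := by
    rw [Ne, Ideal.absNorm_eq_zero_iff, Ideal.span_singleton_eq_bot]
    exact hz0
  have h2 : ((Ideal.absNorm (Ideal.span {z}) : ℕ) : 𝓞 L) ∈ Ideal.span {z} :=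
    Ideal.absNorm_mem _
  rw [Ideal.mem_span_singleton] at h2
  obtain ⟨y, hy⟩ := h2
  have h3 : ((Ideal.absNorm (Ideal.span {z}) : ℕ) : k) = 0 := by
    rw [← map_natCast θ, hy, map_mul, hz, zero_mul]
  have h4 : κ ((Ideal.absNorm (Ideal.span {z}) : ℕ) : ZMod l) = 0 := by
    rw [map_natCast, h3]
  have h5 := (map_eq_zero κ).1 h4
  rw [ZMod.natCast_eq_zero_iff] at h5
  exact absurd (Nat.le_of_dvd (Nat.pos_of_ne_zero h1) h5) (not_le.2 hl)

/-- the two characters agree up to a bounded power -/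
theorem nf_key (F : Type) [Field F] [NumberField F] (S : Finset ℕ) (hS : ∀ p ∈ S, p.Prime)
    (w : ℕ) (h : Fin 2 → ℕ) (M : Mot F S 2 w h) (hTRP : ST_TRP) (hCL2 : ST_CL2)
    (l₀ : ℕ) [Fact l₀.Prime] (H' : Subgroup (Gal F)) (hH'n : H'.Normal)
    (hH'o : IsOpen (H' : Set (Gal F))) (hirr : IsIrr (rat (M.ρ l₀)))
    (B₀ : Matrix (Fin 2) (Fin 1) ℚ_[l₀]) (A₀ : H' → Matrix (Fin 1) (Fin 1) ℚ_[l₀])
    (hBA' : IsSub ((rat (M.ρ l₀)).comp H'.subtype) B₀ A₀) :
    ∀ (l : ℕ) [Fact l.Prime] (k : Type) [Field k] (κ : ZMod l →+* k)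
      (a₁ a₂ : Gal F →* kˣ),
      (∀ g, κ (res (M.ρ l) g).trace = a₁ g + a₂ g) → (∀ g, κ (res (M.ρ l) g).det = a₁ g * a₂ g) →
      ∀ g, (a₁ g) ^ (2 * H'.index) = (a₂ g) ^ (2 * H'.index) := by
  rcases hCL2 (Gal F) ℚ_[l₀] (rat (M.ρ l₀)) H' hH'n hirr B₀ _ hBA' with
    ⟨G', hHG, hG'ne, htr⟩ | hsc
  · have hG'o : IsOpen (G' : Set (Gal F)) := Subgroup.isOpen_mono hHG hH'o
    have hG'c : IsOpen ((G' : Set (Gal F))ᶜ) :=
      (Subgroup.isClosed_of_isOpen G' hG'o).isOpen_compl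
    intro l _ k _ κ a₁ a₂ htra hdet
    have h1 := hTRP F S hS 2 w h M _ hG'c (MvPolynomial.X 1) l₀ l (by
      intro σ hσ
      rw [MvPolynomial.aeval_X, (nf_coeff _).1]
      have h2 := htr σ hσ
      rw [(nf_rat _ _).1] at h2
      have h3 : Function.Injective (algebraMap ℤ_[l₀] ℚ_[l₀]) :=
        FaithfulSMul.algebraMap_injective _ _
      rw [h3 (h2.trans (map_zero _).symm), neg_zero])
    have h4 : ∀ σ, σ ∉ G' → (a₁ σ) ^ 2 = (a₂ σ) ^ 2 := by
      intro σ hσ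
      have h5 := h1 σ hσ
      rw [MvPolynomial.aeval_X, (nf_coeff _).1, neg_eq_zero] at h5
      have h6 := htra σ
      rw [(nf_res _ _).1, h5, map_zero, map_zero] at h6
      apply Units.ext
      push_cast
      linear_combination (-(a₁ σ : k) + (a₂ σ : k)) * h6
    obtain ⟨t, ht⟩ : ∃ t, t ∉ G' := by
      by_contra hc
      push Not at hc
      exact hG'ne (by rw [eq_top_iff]; exact fun x _ => hc x)
    intro g
    rw [pow_mul, pow_mul]
    congr 1
    by_cases hg : g ∈ G'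
    · have h5 := h4 (g * t) (fun h => ht ((Subgroup.mul_mem_cancel_left G' hg).1 h))
      rw [map_mul, map_mul, mul_pow, mul_pow, h4 t ht] at h5
      exact mul_right_cancel h5
    · exact h4 g hg
  · intro l _ k _ κ a₁ a₂ htra hdet
    have h1 := hTRP F S hS 2 w h M _ hH'o
      (MvPolynomial.X 1 ^ 2 - 4 * MvPolynomial.X 0) l₀ l (by
      intro σ hσ
      have h2 := hsc σ hσ
      rw [(nf_rat _ _).1, (nf_rat _ _).2] at h2
      have h3 : Function.Injective (algebraMap ℤ_[l₀] ℚ_[l₀]) :=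
        FaithfulSMul.algebraMap_injective _ _
      rw [map_sub, map_mul, map_pow, MvPolynomial.aeval_X, MvPolynomial.aeval_X,
        (nf_coeff _).1, (nf_coeff _).2]
      apply h3
      have h5 : (MvPolynomial.aeval fun i => (((M.ρ l₀ σ :
          Matrix.GeneralLinearGroup (Fin 2) ℤ_[l₀]) :
          Matrix (Fin 2) (Fin 2) ℤ_[l₀]).charpoly.coeff i)) (4 : MvPolynomial ℕ ℤ) = 4 :=
        map_ofNat _ 4
      rw [h5, map_sub, map_mul, map_pow, map_neg, map_zero, map_ofNat]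
      linear_combination h2)
    have h4 : ∀ σ ∈ H', a₁ σ = a₂ σ := by
      intro σ hσ
      have h5 := h1 σ hσ
      have h6 : (MvPolynomial.aeval fun i => (((M.ρ l σ :
          Matrix.GeneralLinearGroup (Fin 2) ℤ_[l]) :
          Matrix (Fin 2) (Fin 2) ℤ_[l]).charpoly.coeff i)) (4 : MvPolynomial ℕ ℤ) = 4 :=
        map_ofNat _ 4
      rw [map_sub, map_mul, map_pow, MvPolynomial.aeval_X, MvPolynomial.aeval_X,
        (nf_coeff _).1, (nf_coeff _).2, h6] at h5
      have h7 := congrArg κ (congrArg (PadicInt.toZMod (p := l)) h5)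
      rw [map_sub, map_mul, map_pow, map_neg, map_zero, map_ofNat, ← (nf_res _ _).1,
        ← (nf_res _ _).2, map_sub, map_mul, map_pow, map_neg, map_zero, map_ofNat, hdet,
        htra] at h7
      have h8 : ((a₁ σ : k) - (a₂ σ : k)) ^ 2 = 0 := by linear_combination h7
      exact Units.ext (sub_eq_zero.1 (pow_eq_zero_iff two_ne_zero |>.1 h8))
    intro g
    apply nf_pow
    rw [← map_pow, ← map_pow]
    exact h4 _ (H'.pow_index_mem g)

theorem nf_emb (F L : Type) [Field F] [NumberField F] [Field L] [NumberField L] :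
    Nonempty (L →+* AlgebraicClosure F) := by
  let j : L →ₐ[ℚ] AlgebraicClosure F := IsAlgClosed.lift
  exact ⟨j.toRingHom⟩

theorem st_NF2 (hREL : ST_REL3) (hLIN0 : ST_LIN0) (hTRP : ST_TRP) (hCL2 : ST_CL2)
    (hPIN : ST_PIN) (hOVP : ST_OVP) : ST_NF2 := by
  intro F _ _ S hS w h M hh hirr
  by_contra hcon
  push Not at hcon
  obtain ⟨L, _, _, _, ⟨τ0⟩⟩ := ir_gal F
  have hne : Nonempty (F →+* L) := ⟨τ0⟩
  obtain ⟨e, he⟩ := hREL F L S hS 2 w h M (by
    intro c
    obtain ⟨l, hl, hcl, hF⟩ := hcon c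
    exact ⟨l, hl, hcl, hF⟩)
  obtain ⟨l₀, hl₀, H, hH, B₀, A₀, hBA₀⟩ := hLIN0 F L S hS w h M (e 0) (nf_rel M L e he)
  obtain ⟨hperm, S', hSS', hrel⟩ := he
  -- the normal core
  have hHf : H.FiniteIndex := by
    have := Subgroup.quotient_finite_of_isOpen H hH
    exact Subgroup.finiteIndex_of_finite_quotient
  set H' := H.normalCore with hH'
  have hH'o : IsOpen (H' : Set (Gal F)) :=
    Subgroup.isOpen_of_isClosed_of_finiteIndex _
      (H.normalCore_isClosed (Subgroup.isClosed_of_isOpen H hH))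
  have hH'n : H'.Normal := H.normalCore_normal
  have hBA' : IsSub ((rat (M.ρ l₀)).comp H'.subtype) B₀
      (fun g => A₀ ⟨g, H.normalCore_le g.2⟩) :=
    ⟨hBA₀.1, fun g => hBA₀.2 ⟨g, H.normalCore_le g.2⟩⟩
  have hd : 0 < H'.index := Nat.pos_of_ne_zero Subgroup.FiniteIndex.index_ne_zero
  have key := nf_key F S hS w h M hTRP hCL2 l₀ H' hH'n hH'o (hirr l₀) B₀ _ hBA'
  -- the exponents differ
  have hee : (fun τ => e 0 τ * (2 * H'.index)) ≠ fun τ => e 1 τ * (2 * H'.index) := by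
    intro h1
    have h2 := congrFun h1 τ0
    have h3 : e 0 τ0 = e 1 τ0 := Nat.eq_of_mul_eq_mul_right (by omega) h2
    obtain ⟨s, hs⟩ := hperm τ0
    rw [hs, hs] at h3
    have h4 := s.injective (hh h3)
    exact absurd h4 (by decide)
  obtain ⟨m, hm, hgen⟩ := lin_gen F
  obtain ⟨p, v, hp, hcp, hpv, hprod⟩ := hPIN F L _ _ hee m (S'.sup id) hm
  have hpS' : p ∉ S' := by
    intro h1
    have h2 : p ≤ S'.sup id := Finset.le_sup (f := id) h1
    omega
  obtain ⟨x, hx1, hx2⟩ := hgen v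
  obtain ⟨hO1, hO2, -, hO4, -, -, -⟩ := hOVP F
  obtain ⟨𝔓, h𝔓⟩ := hO1 v
  obtain ⟨σ₀, hσ₀⟩ := hO2 v 𝔓 h𝔓
  obtain ⟨p', f, hp', hf, hqv, hov', hp'v⟩ := hO4 v 𝔓 h𝔓
  have hpp' : p' = p := by
    by_contra hne'
    have h1 : Nat.Coprime p' p := (Nat.coprime_primes hp' hp).2 hne'
    have h2 : IsCoprime (p' : 𝓞 F) (p : 𝓞 F) := by
      have h3 := (Nat.isCoprime_iff_coprime.mpr h1).map (Int.castRingHom (𝓞 F))
      simpa using h3
    obtain ⟨a, b, hab⟩ := h2
    apply v.isPrime.ne_top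
    rw [Ideal.eq_top_iff_one, ← hab]
    exact Ideal.add_mem _ (Ideal.mul_mem_left _ _ hp'v) (Ideal.mul_mem_left _ _ hpv)
  rw [hpp'] at hqv hov'
  -- the Frobenius element
  obtain ⟨P, -, hP⟩ := M.pure p hp (fun h1 => hpS' (hSS' h1)) 𝔓 hov' (f * m)
    (σ₀ ^ m) (Nat.mul_pos hf hm) (by
      have h1 := congPow_pow 𝔓 (q v) σ₀ hσ₀ m
      rw [hqv, ← pow_mul] at h1
      exact h1)
  have hPL := hrel v p 𝔓 1 m σ₀ x P hp hpS' hpv h𝔓 one_pos hm (by rw [pow_one]; exact hσ₀)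
    hx1 hx2 (by
    intro l' _ hl'
    have h1 := hP l' hl'
    rwa [map_inv] at h1)
  rw [Fin.prod_univ_two] at hPL
  set β₀ : 𝓞 L := ∏ τ : F →+* L, RingOfIntegers.mapRingHom τ x ^ (e 0 τ * 1) with hβ₀
  set β₁ : 𝓞 L := ∏ τ : F →+* L, RingOfIntegers.mapRingHom τ x ^ (e 1 τ * 1) with hβ₁
  -- a large prime
  obtain ⟨l, hl, hcl, k, _, κ, ι, δ, -, -, -, -, -, hch⟩ := hcon (max p (Ideal.absNorm (Ideal.span
    {β₀ ^ (2 * H'.index) - β₁ ^ (2 * H'.index)})))
  have hlp : l ≠ p := ((le_max_left _ _).trans_lt hcl).ne'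
  obtain ⟨j⟩ := nf_emb F L
  obtain ⟨θ, -⟩ : ∃ θ : 𝓞 L →+* k, θ = ι.comp (RingOfIntegers.mapRingHom j) := ⟨_, rfl⟩
  have hch0 := hch ((σ₀ ^ m)⁻¹)
  rw [Fin.prod_univ_two] at hch0
  have hpow := key l k κ (δ 0) (δ 1) (fun g => by
      have h1 := hch g
      rw [Fin.prod_univ_two] at h1
      exact (nf_tr κ _ _ _ h1).1) (fun g => by
      have h1 := hch g
      rw [Fin.prod_univ_two] at h1
      exact (nf_tr κ _ _ _ h1).2) ((σ₀ ^ m)⁻¹)
  have hres : (res (M.ρ l) (σ₀ ^ m)⁻¹).charpoly.map κ = (P.map (Int.castRingHom (𝓞 L))).map θ := by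
    have h1 : res (M.ρ l) (σ₀ ^ m)⁻¹ = (PadicInt.toZMod (p := l)).mapMatrix
        ((M.ρ l (σ₀ ^ m)⁻¹ : Matrix.GeneralLinearGroup (Fin 2) ℤ_[l]) :
          Matrix (Fin 2) (Fin 2) ℤ_[l]) := rfl
    rw [h1, RingHom.mapMatrix_apply, Matrix.charpoly_map, hP l hlp, Polynomial.map_map,
      Polynomial.map_map, Polynomial.map_map]
    congr 1
    exact Subsingleton.elim _ _
  rw [hres, hPL, Polynomial.map_mul, Polynomial.map_sub, Polynomial.map_sub, Polynomial.map_X,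
    Polynomial.map_C, Polynomial.map_C] at hch0
  have h5 := nf_roots (N := 2 * H'.index) hch0 (by
    have h6 := congrArg Units.val hpow
    rw [Units.val_pow_eq_pow_val, Units.val_pow_eq_pow_val] at h6
    exact h6)
  have h6 : β₀ ^ (2 * H'.index) - β₁ ^ (2 * H'.index) = 0 := by
    apply nf_zero _ κ θ
    · rw [map_sub, map_pow, map_pow, h5, sub_self]
    · exact (le_max_right _ _).trans_lt hcl
  apply hprod x hx2
  have h7 := sub_eq_zero.1 h6
  rw [hβ₀, hβ₁, ← Finset.prod_pow, ← Finset.prod_pow] at h7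
  have h8 : ∀ i : Fin 2, (∏ τ : F →+* L, (RingOfIntegers.mapRingHom τ x ^ (e i τ * 1)) ^
      (2 * H'.index)) = ∏ τ : F →+* L, RingOfIntegers.mapRingHom τ x ^ (e i τ * (2 * H'.index)) :=
    fun i => Finset.prod_congr rfl fun τ _ => by rw [mul_one, ← pow_mul]
  rw [h8, h8] at h7
  exact h7

end Pool.Agent.Helper34.REC
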