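import Pool.Agent.Helper85.REC.Stmts9
import Pool.Agent.Helper43.MU.Sub

/-!
# REC.ST_CL3: Clifford's theorem for an invariant line in an orthogonal representation   [helper34]
-/

set_option autoImplicit false

open scoped Classical
open Matrix

namespace Pool.Agent.Helper34.REC

open _root_.REC MU

theorem form_ne_zero {G K : Type} [Group G] [Field K] {n : ℕ} (hn : n ≠ 0)
    {r : G →* Matrix (Fin n) (Fin n) K}
    {ψ : Matrix (Fin n) (Fin n) K} {ν : G → K} (hψ : IsForm r ψ ν) (g : G) : ν g ≠ 0 := by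
  intro h0
  have h1 := hψ.2.2 g
  rw [h0, zero_smul] at h1
  have h2 := congrArg Matrix.det h1
  have : Nonempty (Fin n) := ⟨⟨0, Nat.pos_of_ne_zero hn⟩⟩
  rw [Matrix.det_mul, Matrix.det_mul, Matrix.det_transpose, Matrix.det_zero] at h2
  have h3 : (r g).det ≠ 0 := by
    intro h
    have h4 : r g * r g⁻¹ = 1 := by rw [← map_mul, mul_inv_cancel, map_one]
    have h5 := congrArg Matrix.det h4
    rw [Matrix.det_mul, h, zero_mul, Matrix.det_one] at h5
    exact zero_ne_one h5
  exact (mul_ne_zero (mul_ne_zero h3 hψ.1) h3) h2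

theorem st_CL3 : ST_CL3 := by
  intro G K _ _ h20 r ψ ν hψ hirr H hH B A hsub h hh
  have hν0 : ∀ g, ν g ≠ 0 := form_ne_zero (by decide) hψ
  obtain ⟨hdet, hsym, hform⟩ := hψ
  obtain ⟨⟨C, hC⟩, hA⟩ := hsub
  let b : Fin 3 → K := fun i => B i 0
  have hb : b ≠ 0 := by
    intro hb0
    have h1 : (C * B) 0 0 = 1 := by rw [hC]; rfl
    rw [Matrix.mul_apply] at h1
    have h2 : ∀ i, B i 0 = 0 := fun i => congrFun hb0 i
    simp only [h2, mul_zero, Finset.sum_const_zero] at h1
    exact zero_ne_one h1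
  obtain ⟨g, hg⟩ := irr_det hirr b hb
  set P : Matrix (Fin 3) (Fin 3) K := Matrix.of fun a j => (r (g j)).mulVec b a with hP
  have hx : ∀ i, (g i)⁻¹ * h * g i ∈ H := by
    intro i
    have := hH.conj_mem h hh (g i)⁻¹
    rwa [inv_inv] at this
  set x : Fin 3 → K := fun i => A ⟨_, hx i⟩ 0 0 with hxdef
  have hhb : ∀ (k : G) (hk : k ∈ H), (r k).mulVec b = A ⟨k, hk⟩ 0 0 • b := by
    intro k hk
    funext i
    have h1 := congrFun (congrFun (hA ⟨k, hk⟩) i) 0
    have h2 : (r.comp H.subtype ⟨k, hk⟩ * B) i 0 = (r k).mulVec b i := rfl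
    rw [h2, Matrix.mul_apply] at h1
    rw [h1]
    simp only [Fin.sum_univ_succ, Finset.univ_eq_empty, Finset.sum_empty, add_zero, Pi.smul_apply,
      smul_eq_mul]
    exact mul_comm _ _
  have hcol : r h * P = P * Matrix.diagonal x := by
    ext a j
    rw [Matrix.mul_diagonal]
    have e1 : (r h * P) a j = (r h).mulVec ((r (g j)).mulVec b) a := rfl
    have e2 : h * g j = g j * ((g j)⁻¹ * h * g j) := by group
    rw [e1, Matrix.mulVec_mulVec, ← map_mul, e2, map_mul, ← Matrix.mulVec_mulVec, hhb _ (hx j),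
      Matrix.mulVec_smul]
    show x j * _ = _ * x j
    exact mul_comm _ _
  -- Gram matrix
  set Γ : Matrix (Fin 3) (Fin 3) K := P.transpose * ψ * P with hΓ
  have hΓdet : Γ.det ≠ 0 := by
    rw [hΓ, Matrix.det_mul, Matrix.det_mul, Matrix.det_transpose]
    exact mul_ne_zero (mul_ne_zero hg hdet) hg
  have hΓsym : ∀ i j, Γ i j = Γ j i := by
    intro i j
    have h1 : Γ.transpose = Γ := by
      rw [hΓ, Matrix.transpose_mul, Matrix.transpose_mul, Matrix.transpose_transpose, hsym,
        Matrix.mul_assoc]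
    exact (congrFun (congrFun h1 i) j).symm
  have hΓx : ∀ i j, x i * Γ i j * x j = ν h * Γ i j := by
    intro i j
    have h1 : Matrix.diagonal x * Γ * Matrix.diagonal x = ν h • Γ := by
      have h2 : (r h * P).transpose * ψ * (r h * P) = ν h • Γ := by
        rw [Matrix.transpose_mul, hΓ]
        have h3 := hform h
        calc P.transpose * (r h).transpose * ψ * (r h * P)
            = P.transpose * ((r h).transpose * ψ * r h) * P := by simp only [Matrix.mul_assoc]
          _ = ν h • (P.transpose * ψ * P) := by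
              rw [h3, Matrix.mul_smul, Matrix.smul_mul]
      rw [hcol, Matrix.transpose_mul, Matrix.diagonal_transpose] at h2
      rw [← h2, hΓ]
      simp only [Matrix.mul_assoc]
    have h4 := congrFun (congrFun h1 i) j
    rw [Matrix.mul_diagonal, Matrix.diagonal_mul] at h4
    exact h4
  have hΓd : ∀ i, Γ i i = ν (g i) * (b ⬝ᵥ ψ.mulVec b) := by
    intro i
    have h1 : Γ i i = (r (g i)).mulVec b ⬝ᵥ ψ.mulVec ((r (g i)).mulVec b) := by
      rw [hΓ, Matrix.mul_assoc, Matrix.mul_apply]
      rfl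
    have h2 : (r (g i)).mulVec b = Matrix.vecMul b (r (g i)).transpose :=
      (Matrix.vecMul_transpose _ _).symm
    have h3 : (r (g i)).mulVec b ⬝ᵥ ψ.mulVec ((r (g i)).mulVec b) =
        b ⬝ᵥ ((r (g i)).transpose * ψ * r (g i)).mulVec b := by
      rw [← Matrix.mulVec_mulVec, ← Matrix.mulVec_mulVec, Matrix.dotProduct_mulVec b, ← h2]
    rw [h1, h3, hform, Matrix.smul_mulVec, dotProduct_smul, smul_eq_mul]
  -- the squares of the eigenvalues
  have hsq : ∀ i, x i * x i = ν h := by
    by_cases hc : b ⬝ᵥ ψ.mulVec b = 0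
    · have hd : ∀ i, Γ i i = 0 := fun i => by rw [hΓd, hc, mul_zero]
      have h1 : Γ.det = 2 * (Γ 0 1 * Γ 0 2 * Γ 1 2) := by
        rw [Matrix.det_fin_three, hd 0, hd 1, hd 2, hΓsym 1 0, hΓsym 2 0, hΓsym 2 1]
        ring
      rw [h1] at hΓdet
      have h2 := right_ne_zero_of_mul hΓdet
      have h12 : Γ 1 2 ≠ 0 := right_ne_zero_of_mul h2
      have h02 : Γ 0 2 ≠ 0 := right_ne_zero_of_mul (left_ne_zero_of_mul h2)
      have h01 : Γ 0 1 ≠ 0 := left_ne_zero_of_mul (left_ne_zero_of_mul h2)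
      have e01 : x 0 * x 1 = ν h := by
        apply mul_right_cancel₀ h01
        rw [← hΓx 0 1]
        ring
      have e02 : x 0 * x 2 = ν h := by
        apply mul_right_cancel₀ h02
        rw [← hΓx 0 2]
        ring
      have e12 : x 1 * x 2 = ν h := by
        apply mul_right_cancel₀ h12
        rw [← hΓx 1 2]
        ring
      have hx0 : x 0 ≠ 0 := fun h0 => hν0 h (by rw [← e01, h0, zero_mul])
      have hx2 : x 2 ≠ 0 := fun h0 => hν0 h (by rw [← e02, h0, mul_zero])
      have f12 : x 1 = x 2 := mul_left_cancel₀ hx0 (e01.trans e02.symm)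
      have f01 : x 0 = x 1 := mul_right_cancel₀ hx2 (e02.trans e12.symm)
      intro i
      fin_cases i
      · show x 0 * x 0 = ν h
        nth_rewrite 2 [f01]
        exact e01
      · show x 1 * x 1 = ν h
        nth_rewrite 2 [f12]
        exact e12
      · show x 2 * x 2 = ν h
        nth_rewrite 1 [← f12]
        exact e12
    · intro i
      have h1 : Γ i i ≠ 0 := by
        rw [hΓd]
        exact mul_ne_zero (hν0 _) hc
      apply mul_right_cancel₀ h1
      rw [← hΓx i i]
      ring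
  have hPP : r h * r h * P = ν h • P := by
    rw [Matrix.mul_assoc, hcol, ← Matrix.mul_assoc, hcol, Matrix.mul_assoc,
      Matrix.diagonal_mul_diagonal]
    have h1 : (fun i => x i * x i) = fun _ : Fin 3 => ν h := funext hsq
    rw [h1]
    ext a j
    rw [Matrix.mul_diagonal, Matrix.smul_apply, smul_eq_mul]
    exact mul_comm _ _
  have hu : IsUnit P.det := isUnit_iff_ne_zero.mpr hg
  have h3 : r h * r h * P * P⁻¹ = ν h • P * P⁻¹ := by rw [hPP]
  rw [Matrix.mul_assoc, Matrix.mul_nonsing_inv _ hu, Matrix.mul_one, Matrix.smul_mul,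
    Matrix.mul_nonsing_inv _ hu] at h3
  exact h3

end Pool.Agent.Helper34.REC
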