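import Pool.Agent.Helper85.REC.Stmts9

/-!
# REC.ST_CNV: embeddings in a Galois extension of `ℚ` and in the algebraic closure   [helper34]
-/

set_option autoImplicit false

open scoped Classical
open NumberField

namespace Pool.Agent.Helper34.REC

open _root_.REC MU

theorem st_CNV : ST_CNV := by
  intro F L _ _ _ _ _ ⟨τ0⟩
  let j : L →ₐ[ℚ] AlgebraicClosure F := IsAlgClosed.lift
  have hj : Function.Injective j := j.toRingHom.injective
  refine ⟨j.toRingHom, ?_, ?_⟩
  · intro τ τ' h
    ext x
    exact hj (RingHom.congr_fun h x)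
  · intro σ
    have hmem : ∀ x : F, ∃ y : L, j y = σ x := by
      intro x
      have hspl : ((minpoly ℚ (τ0 x)).map (algebraMap ℚ L)).Splits :=
        Normal.splits (inferInstance : Normal ℚ L) (τ0 x)
      have hmp : minpoly ℚ (τ0 x) = minpoly ℚ x :=
        minpoly.algHom_eq (RingHom.toRatAlgHom τ0) τ0.injective x
      have hroot : σ x ∈ (((minpoly ℚ (τ0 x)).map (algebraMap ℚ L)).map j.toRingHom).roots := by
        rw [Polynomial.mem_roots']
        refine ⟨?_, ?_⟩
        · rw [Polynomial.map_map, Polynomial.map_ne_zero_iff (RingHom.injective _)]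
          exact minpoly.ne_zero (Algebra.IsIntegral.isIntegral _)
        · rw [Polynomial.IsRoot, Polynomial.map_map, Polynomial.eval_map, hmp]
          have h1 : (j.toRingHom.comp (algebraMap ℚ L)) = σ.comp (algebraMap ℚ F) :=
            RingHom.ext_rat _ _
          rw [h1, ← Polynomial.hom_eval₂, ← Polynomial.aeval_def, minpoly.aeval, map_zero]
      rw [hspl.roots_map, Multiset.mem_map] at hroot
      obtain ⟨y, _, hy⟩ := hroot
      exact ⟨y, hy⟩
    choose τ hτ using hmem
    refine ⟨{ toFun := τ, map_one' := ?_, map_mul' := ?_, map_zero' := ?_, map_add' := ?_ }, ?_⟩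
    · apply hj
      rw [hτ, map_one, map_one]
    · intro a b
      apply hj
      rw [hτ, map_mul, map_mul, hτ, hτ]
    · apply hj
      rw [hτ, map_zero, map_zero]
    · intro a b
      apply hj
      rw [hτ, map_add, map_add, hτ, hτ]
    · ext x
      exact hτ x

end Pool.Agent.Helper34.REC
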