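import Pool.Agent.Helper85.REC.Stmts10

/-!
# REC.ST_CRD: lattices in completely reducible modules   [helper34]
-/

set_option autoImplicit false
set_option maxHeartbeats 800000

open scoped Classical

namespace Pool.Agent.Helper34.REC

open _root_.REC

/-- transport -/
theorem finL_of_equiv {O K V V' X : Type} [CommRing O] [IsDomain O] [Field K] [Algebra O K]
    [IsFractionRing O K] [AddCommGroup V] [Module K V] [Module O V] [IsScalarTower O K V]
    [AddCommGroup V'] [Module K V'] [Module O V'] [IsScalarTower O K V'] (e : V ≃ₗ[K] V')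
    (ρ : X → V →ₗ[K] V) (ρ' : X → V' →ₗ[K] V') (he : ∀ x v, e (ρ x v) = ρ' x (e v))
    (h : FinL O ρ) : FinL O ρ' := by
  obtain ⟨T, hT, hTT⟩ := h
  have he' : ∀ x v, e.symm (ρ' x v) = ρ x (e.symm v) := by
    intro x v
    apply e.injective
    rw [LinearEquiv.apply_symm_apply, he, LinearEquiv.apply_symm_apply]
  refine ⟨(fun Λ : Submodule O V => Λ.map ((e : V →ₗ[K] V').restrictScalars O)) '' T,
    hT.image _, ?_⟩
  intro Λ hΛ hs hst
  obtain ⟨f, hf, hfT⟩ := hTT (Λ.map ((e.symm : V' →ₗ[K] V).restrictScalars O)) (hΛ.map _) (by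
      rw [eq_top_iff]
      intro v _
      have h1 : e v ∈ Submodule.span K (Λ : Set V') := by
        rw [hs]
        trivial
      have h2 := Submodule.mem_map_of_mem (f := (e.symm : V' →ₗ[K] V)) h1
      rw [Submodule.map_span] at h2
      have h3 : (e.symm : V' →ₗ[K] V) (e v) = v := e.symm_apply_apply v
      rw [h3] at h2
      exact h2) (by
      rintro x _ ⟨v, hv, rfl⟩
      refine ⟨_, hst x v hv, ?_⟩
      exact he' x v)
  refine ⟨e.symm.trans (f.trans e), ?_, ?_⟩
  · intro x v
    rw [LinearEquiv.trans_apply, LinearEquiv.trans_apply, LinearEquiv.trans_apply,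
      LinearEquiv.trans_apply, he', hf, he]
  · refine ⟨_, hfT, ?_⟩
    change ((Λ.map ((e.symm : V' →ₗ[K] V).restrictScalars O)).map
      ((f : V →ₗ[K] V).restrictScalars O)).map ((e : V →ₗ[K] V').restrictScalars O) = _
    rw [← Submodule.map_comp, ← Submodule.map_comp]
    rfl

theorem st_CRD (hEXT : ST_EXT) : ST_CRD := by
  intro O K V X _ _ _ _ _ _ _ _ _ _ _ hO ρ hc hi
  have key : ∀ (n : ℕ) (W : Submodule K V) (hW : ∀ x, ∀ v ∈ W, ρ x v ∈ W),
      Module.finrank K W = n → FinL O (fun x => (ρ x).restrict (hW x)) := by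
    intro n
    induction n using Nat.strong_induction_on with
    | _ n ih =>
      intro W hW hn
      by_cases hirr : ∀ W' : Submodule K V, (∀ x, ∀ v ∈ W', ρ x v ∈ W') → W' ≤ W →
          W' = ⊥ ∨ W' = W
      · exact hi W hW hirr
      · push Not at hirr
        obtain ⟨W₁, hW₁, hle, hne0, hne1⟩ := hirr
        obtain ⟨W', hW', hcompl⟩ := hc W₁ hW₁
        have hW₂ : ∀ x, ∀ v ∈ W' ⊓ W, ρ x v ∈ W' ⊓ W := fun x v hv =>
          ⟨hW' x v hv.1, hW x v hv.2⟩
        have hdis : Disjoint W₁ (W' ⊓ W) := hcompl.disjoint.mono_right inf_le_left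
        have hsup : W₁ ⊔ (W' ⊓ W) = W := by
          rw [← sup_inf_assoc_of_le W' hle, hcompl.codisjoint.eq_top, top_inf_eq]
        have hlt₁ : W₁ < W := lt_of_le_of_ne hle hne1
        have hlt₂ : W' ⊓ W < W := by
          refine lt_of_le_of_ne inf_le_right ?_
          intro h1
          rw [h1] at hdis
          exact hne0 (disjoint_self.1 (hdis.mono_right hle))
        have h₁ := ih _ (by rw [← hn]; exact Submodule.finrank_lt_finrank_of_lt hlt₁) W₁ hW₁ rfl
        have h₂ := ih _ (by rw [← hn]; exact Submodule.finrank_lt_finrank_of_lt hlt₂) (W' ⊓ W)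
          hW₂ rfl
        have h₃ := hEXT O K W₁ (W' ⊓ W : Submodule K V) X hO _ _ h₁ h₂
        let φ : (W₁ × (W' ⊓ W : Submodule K V)) →ₗ[K] W :=
          { toFun := fun p => ⟨p.1 + p.2, W.add_mem (hle p.1.2) p.2.2.2⟩
            map_add' := fun p q => by
              apply Subtype.ext
              exact add_add_add_comm _ _ _ _
            map_smul' := fun c p => by
              apply Subtype.ext
              exact (smul_add c (p.1 : V) (p.2 : V)).symm }
        have hφ : Function.Bijective φ := by
          constructor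
          · rw [← LinearMap.ker_eq_bot, LinearMap.ker_eq_bot']
            intro p hp
            have h4 : (p.1 : V) + p.2 = 0 := congrArg Subtype.val hp
            have h5 : (p.1 : V) = -p.2 := eq_neg_of_add_eq_zero_left h4
            have h6 : (p.1 : V) = 0 := by
              have h7 : (p.1 : V) ∈ W' ⊓ W := by
                rw [h5]
                exact Submodule.neg_mem _ p.2.2
              exact (Submodule.disjoint_def.1 hdis) _ p.1.2 h7
            have h7 : (p.2 : V) = 0 := by
              rw [h6, zero_add] at h4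
              exact h4
            ext1
            · exact Subtype.ext h6
            · exact Subtype.ext h7
          · rintro ⟨w, hw⟩
            rw [← hsup] at hw
            obtain ⟨a, ha, b, hb, hab⟩ := Submodule.mem_sup.1 hw
            exact ⟨(⟨a, ha⟩, ⟨b, hb⟩), Subtype.ext hab⟩
        refine finL_of_equiv (LinearEquiv.ofBijective φ hφ) _ _ ?_ h₃
        intro x p
        apply Subtype.ext
        change ρ x p.1 + ρ x p.2 = ρ x (p.1 + p.2)
        rw [map_add]
  exact finL_of_equiv Submodule.topEquiv _ ρ (fun x v => rfl)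
    (key _ ⊤ (fun x v _ => Submodule.mem_top) rfl)

end Pool.Agent.Helper34.REC
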