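import Pool.Agent.Helper57.REC.Stmts1
import Pool.Agent.Helper94.ZL.PZ

/-!
# EUL: the logarithm of the Euler product
`∏_{v ∈ S} (1 - φ v) * ∑ φ I` is the sum of `φ` over the ideals prime to `S`, and tends to `1`.
-/

set_option autoImplicit false

open scoped Classical
open NumberField Filter Topology

namespace REC

open Pool.Agent.Helper13.ZL (Pl q HasMean pz_I pz_N pz_summable pz_psum pz_N_one)

section

variable {F : Type} [Field F] [NumberField F]

theorem eul_le_iff (v : Pl F) (I J : Ideal (𝓞 F)) :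
    I * J ≤ v.asIdeal ↔ I ≤ v.asIdeal ∨ J ≤ v.asIdeal := by
  constructor
  · intro h
    exact (v.isPrime.mul_le).1 h
  · rintro (h | h)
    · exact Ideal.mul_le_left.trans h
    · exact Ideal.mul_le_right.trans h

theorem eul_cop (B : Finset (Pl F)) (I J : Ideal (𝓞 F)) :
    Cop B (I * J) ↔ Cop B I ∧ Cop B J := by
  unfold Cop
  constructor
  · rintro ⟨h0, h⟩
    refine ⟨⟨?_, fun v hv h' => h v hv ((eul_le_iff v I J).2 (Or.inl h'))⟩,
      ⟨?_, fun v hv h' => h v hv ((eul_le_iff v I J).2 (Or.inr h'))⟩⟩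
    · rintro rfl
      exact h0 (by simp)
    · rintro rfl
      exact h0 (by simp)
  · rintro ⟨⟨hI, hI'⟩, ⟨hJ, hJ'⟩⟩
    refine ⟨mul_ne_zero hI hJ, fun v hv h => ?_⟩
    rcases (eul_le_iff v I J).1 h with h' | h'
    · exact hI' v hv h'
    · exact hJ' v hv h'

theorem eul_eq_of_le (v w : Pl F) (h : v.asIdeal ≤ w.asIdeal) : v = w := by
  have hm : v.asIdeal.IsMaximal := v.isPrime.isMaximal v.ne_bot
  exact IsDedekindDomain.HeightOneSpectrum.ext (hm.eq_of_le w.isPrime.ne_top h)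

theorem eul_copv (B : Finset (Pl F)) (v : Pl F) : Cop B v.asIdeal ↔ v ∉ B := by
  unfold Cop
  constructor
  · rintro ⟨_, h⟩ hv
    exact h v hv le_rfl
  · intro hv
    refine ⟨v.ne_bot, fun w hw h => hv ?_⟩
    rw [eul_eq_of_le v w h]
    exact hw

theorem eul_copT (B : Finset (Pl F)) : Cop B (⊤ : Ideal (𝓞 F)) := by
  refine ⟨top_ne_bot, fun v _ h => v.isPrime.ne_top (top_le_iff.1 h)⟩

/-- a completely multiplicative function -/
structure EulM (φ : Ideal (𝓞 F) → ℂ) : Prop where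
  mul : ∀ I J, φ (I * J) = φ I * φ J
  one : φ ⊤ = 1
  zero : φ ⊥ = 0
  sum : Summable φ

theorem eul_step {φ : Ideal (𝓞 F) → ℂ} (h : EulM φ) (S : Finset (Pl F)) :
    ∑' I, (if ∀ v ∈ S, ¬ I ≤ v.asIdeal then φ I else 0) =
      (∏ v ∈ S, (1 - φ v.asIdeal)) * ∑' I, φ I := by
  induction S using Finset.induction_on with
  | empty => simp
  | @insert v S hv ih =>
    rw [Finset.prod_insert hv, mul_assoc, ← ih]
    have hs1 : Summable (fun I => if ∀ w ∈ S, ¬ I ≤ w.asIdeal then φ I else 0) := by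
      refine Summable.of_norm_bounded h.sum.norm fun I => ?_
      split_ifs
      · exact le_rfl
      · rw [norm_zero]
        exact norm_nonneg _
    have hs2 : Summable (fun I =>
        if (∀ w ∈ S, ¬ I ≤ w.asIdeal) ∧ I ≤ v.asIdeal then φ I else 0) := by
      refine Summable.of_norm_bounded h.sum.norm fun I => ?_
      split_ifs
      · exact le_rfl
      · rw [norm_zero]
        exact norm_nonneg _
    have h1 : ∑' I, (if (∀ w ∈ S, ¬ I ≤ w.asIdeal) ∧ I ≤ v.asIdeal then φ I else 0) =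
        φ v.asIdeal * ∑' I, (if ∀ w ∈ S, ¬ I ≤ w.asIdeal then φ I else 0) := by
      have hinj : Function.Injective (fun J : Ideal (𝓞 F) => v.asIdeal * J) := by
        intro J J' hJ
        exact mul_left_cancel₀ (show v.asIdeal ≠ 0 from v.ne_bot) hJ
      have h2 := hinj.tsum_eq
        (f := fun I => if (∀ w ∈ S, ¬ I ≤ w.asIdeal) ∧ I ≤ v.asIdeal then φ I else 0) ?_
      · rw [← h2, ← tsum_mul_left]
        refine tsum_congr fun J => ?_
        have h3 : ((∀ w ∈ S, ¬ v.asIdeal * J ≤ w.asIdeal) ∧ v.asIdeal * J ≤ v.asIdeal) ↔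
            ∀ w ∈ S, ¬ J ≤ w.asIdeal := by
          constructor
          · rintro ⟨h4, _⟩ w hw h5
            exact h4 w hw ((eul_le_iff w _ _).2 (Or.inr h5))
          · intro h4
            refine ⟨fun w hw h5 => ?_, Ideal.mul_le_left⟩
            rcases (eul_le_iff w _ _).1 h5 with h6 | h6
            · apply hv
              rw [eul_eq_of_le v w h6]
              exact hw
            · exact h4 w hw h6
        show (if (∀ w ∈ S, ¬ v.asIdeal * J ≤ w.asIdeal) ∧ v.asIdeal * J ≤ v.asIdeal then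
          φ (v.asIdeal * J) else 0) = _
        by_cases h4 : ∀ w ∈ S, ¬ J ≤ w.asIdeal
        · rw [if_pos h4, if_pos (h3.2 h4), h.mul]
        · rw [if_neg h4, if_neg (fun h5 => h4 (h3.1 h5)), mul_zero]
      · intro I hI
        rw [Function.mem_support] at hI
        have h4 : I ≤ v.asIdeal := by
          by_contra h5
          exact hI (if_neg fun h6 => h5 h6.2)
        obtain ⟨J, hJ⟩ := Ideal.dvd_iff_le.2 h4
        exact ⟨J, hJ.symm⟩
    have h2 : ∀ I : Ideal (𝓞 F), (if ∀ w ∈ insert v S, ¬ I ≤ w.asIdeal then φ I else 0) =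
        (if ∀ w ∈ S, ¬ I ≤ w.asIdeal then φ I else 0) -
        (if (∀ w ∈ S, ¬ I ≤ w.asIdeal) ∧ I ≤ v.asIdeal then φ I else 0) := by
      intro I
      by_cases h3 : ∀ w ∈ S, ¬ I ≤ w.asIdeal
      · by_cases h4 : I ≤ v.asIdeal
        · have h5 : ¬ ∀ w ∈ insert v S, ¬ I ≤ w.asIdeal :=
            fun h5 => h5 v (Finset.mem_insert_self v S) h4
          have h6 : (∀ w ∈ S, ¬ I ≤ w.asIdeal) ∧ I ≤ v.asIdeal := ⟨h3, h4⟩
          rw [if_neg h5, if_pos h3, if_pos h6, sub_self]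
        · have h5 : ∀ w ∈ insert v S, ¬ I ≤ w.asIdeal := by
            intro w hw
            rcases Finset.mem_insert.1 hw with rfl | hw'
            · exact h4
            · exact h3 w hw'
          have h6 : ¬ ((∀ w ∈ S, ¬ I ≤ w.asIdeal) ∧ I ≤ v.asIdeal) := fun h6 => h4 h6.2
          rw [if_pos h5, if_pos h3, if_neg h6, sub_zero]
      · have h5 : ¬ ∀ w ∈ insert v S, ¬ I ≤ w.asIdeal :=
          fun h5 => h3 fun w hw => h5 w (Finset.mem_insert_of_mem hw)
        have h6 : ¬ ((∀ w ∈ S, ¬ I ≤ w.asIdeal) ∧ I ≤ v.asIdeal) := fun h6 => h3 h6.1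
        rw [if_neg h5, if_neg h3, if_neg h6, sub_zero]
    rw [tsum_congr h2, hs1.tsum_sub hs2, h1, sub_mul, one_mul]

theorem eul_lim {φ : Ideal (𝓞 F) → ℂ} (h : EulM φ) :
    Tendsto (fun S : Finset (Pl F) => (∏ v ∈ S, (1 - φ v.asIdeal)) * ∑' I, φ I) atTop (𝓝 1) := by
  have h1 : Tendsto (fun S : Finset (Pl F) =>
      ∑' I, (if ∀ v ∈ S, ¬ I ≤ v.asIdeal then φ I else 0)) atTop
      (𝓝 (∑' I : Ideal (𝓞 F), if I = ⊤ then (1 : ℂ) else 0)) := by
    refine tendsto_tsum_of_dominated_convergence (bound := fun I => ‖φ I‖) h.sum.norm ?_ ?_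
    · intro I
      by_cases hT : I = ⊤
      · rw [hT, if_pos rfl]
        have : ∀ S : Finset (Pl F),
            (if ∀ v ∈ S, ¬ (⊤ : Ideal (𝓞 F)) ≤ v.asIdeal then φ ⊤ else 0) = 1 := by
          intro S
          rw [if_pos (eul_copT S).2, h.one]
        simp only [this]
        exact tendsto_const_nhds
      · rw [if_neg hT]
        by_cases hB : I = ⊥
        · rw [hB, h.zero]
          simp only [ite_self]
          exact tendsto_const_nhds
        · obtain ⟨M, hM, hIM⟩ := Ideal.exists_le_maximal I hT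
          have hM0 : M ≠ ⊥ := by
            rintro rfl
            exact hB (le_bot_iff.1 hIM)
          have hev : ∀ᶠ S : Finset (Pl F) in atTop,
              (if ∀ v ∈ S, ¬ I ≤ v.asIdeal then φ I else 0) = 0 := by
            filter_upwards [eventually_ge_atTop ({⟨M, hM.isPrime, hM0⟩} : Finset (Pl F))] with S hS
            rw [if_neg]
            intro h5
            exact h5 ⟨M, hM.isPrime, hM0⟩ (hS (Finset.mem_singleton_self _)) hIM
          exact tendsto_const_nhds.congr' (hev.mono fun S hS => hS.symm)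
    · refine Eventually.of_forall fun S I => ?_
      by_cases hp : ∀ v ∈ S, ¬ I ≤ v.asIdeal
      · rw [if_pos hp]
      · rw [if_neg hp, norm_zero]
        exact norm_nonneg _
  rw [tsum_ite_eq] at h1
  refine h1.congr fun S => ?_
  exact eul_step h S

theorem eul_norm (z : ℂ) : ‖1 - z‖ ≤ Real.exp (-z.re + ‖z‖ ^ 2 / 2) := by
  have h1 : ‖1 - z‖ ^ 2 = 1 - 2 * z.re + ‖z‖ ^ 2 := by
    rw [Complex.sq_norm, Complex.sq_norm, Complex.normSq_apply, Complex.normSq_apply]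
    simp only [Complex.sub_re, Complex.one_re, Complex.sub_im, Complex.one_im]
    ring
  have h2 : ‖1 - z‖ ^ 2 ≤ (Real.exp (-z.re + ‖z‖ ^ 2 / 2)) ^ 2 := by
    rw [h1, ← Real.exp_nat_mul]
    have h3 := Real.add_one_le_exp (((2 : ℕ) : ℝ) * (-z.re + ‖z‖ ^ 2 / 2))
    refine le_trans (le_of_eq ?_) h3
    push_cast
    ring
  exact (pow_le_pow_iff_left₀ (norm_nonneg _) (Real.exp_pos _).le two_ne_zero).1 h2

theorem eul_main {φ : Ideal (𝓞 F) → ℂ} (h : EulM φ)
    (h1 : Summable fun v : Pl F => (φ v.asIdeal).re)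
    (h2 : Summable fun v : Pl F => ‖φ v.asIdeal‖ ^ 2) :
    1 ≤ ‖∑' I, φ I‖ * Real.exp (-(∑' v : Pl F, (φ v.asIdeal).re) +
      (∑' v : Pl F, ‖φ v.asIdeal‖ ^ 2) / 2) := by
  have hl := (eul_lim h).norm
  rw [norm_one] at hl
  have hr : Tendsto (fun S : Finset (Pl F) => ‖∑' I, φ I‖ *
      Real.exp (-(∑ v ∈ S, (φ v.asIdeal).re) + (∑ v ∈ S, ‖φ v.asIdeal‖ ^ 2) / 2)) atTop
      (𝓝 (‖∑' I, φ I‖ * Real.exp (-(∑' v : Pl F, (φ v.asIdeal).re) +
      (∑' v : Pl F, ‖φ v.asIdeal‖ ^ 2) / 2))) := by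
    apply Tendsto.const_mul
    apply (Real.continuous_exp.tendsto _).comp
    have t1 : Tendsto (fun S : Finset (Pl F) => ∑ v ∈ S, (φ v.asIdeal).re) atTop
        (𝓝 (∑' v : Pl F, (φ v.asIdeal).re)) := h1.hasSum
    have t2 : Tendsto (fun S : Finset (Pl F) => ∑ v ∈ S, ‖φ v.asIdeal‖ ^ 2) atTop
        (𝓝 (∑' v : Pl F, ‖φ v.asIdeal‖ ^ 2)) := h2.hasSum
    exact t1.neg.add (t2.div_const 2)
  refine le_of_tendsto_of_tendsto' hl hr fun S => ?_
  rw [norm_mul, norm_prod, mul_comm]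
  apply mul_le_mul_of_nonneg_left _ (norm_nonneg _)
  have h3 : Real.exp (-(∑ v ∈ S, (φ v.asIdeal).re) + (∑ v ∈ S, ‖φ v.asIdeal‖ ^ 2) / 2) =
      ∏ v ∈ S, Real.exp (-(φ v.asIdeal).re + ‖φ v.asIdeal‖ ^ 2 / 2) := by
    rw [← Real.exp_sum, Finset.sum_add_distrib, Finset.sum_neg_distrib, Finset.sum_div]
  rw [h3]
  exact Finset.prod_le_prod (fun _ _ => norm_nonneg _) fun v _ => eul_norm _

theorem eul_evn (hEV : ST_EV) (f : Pl F → ℂˣ) (hf : ∀ v, ‖(f v : ℂ)‖ = 1) (I : Ideal (𝓞 F)) :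
    ‖((ev f I : ℂˣ) : ℂ)‖ = 1 := by
  obtain ⟨N, hN⟩ : ∃ N : ℂˣ →* ℝ, ∀ z : ℂˣ, N z = ‖(z : ℂ)‖ :=
    ⟨(normHom : ℂ →*₀ ℝ).toMonoidHom.comp (Units.coeHom ℂ), fun z => rfl⟩
  have h1 := (hEV F ℂˣ).2.2.2.2.2.1 ℝ N f I
  rw [← hN, ← h1]
  have h2 : (fun v => N (f v)) = fun _ : Pl F => (1 : ℝ) := by
    funext v
    rw [hN, hf]
  rw [h2]
  unfold ev
  apply Multiset.prod_eq_one
  intro x hx
  obtain ⟨P, _, rfl⟩ := Multiset.mem_map.1 hx
  split_ifs <;> rfl

theorem eul_ltM (hEV : ST_EV) (B : Finset (Pl F)) (f : Pl F → ℂˣ) (hf : ∀ v, ‖(f v : ℂ)‖ = 1)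
    (s : ℝ) (hs : 1 < s) : EulM (lt B f s) := by
  obtain ⟨e1, e2, e3, -⟩ := hEV F ℂˣ
  refine ⟨fun I J => ?_, ?_, ?_, ?_⟩
  · unfold lt
    by_cases hI : Cop B I
    · by_cases hJ : Cop B J
      · rw [if_pos hI, if_pos hJ, if_pos ((eul_cop B I J).2 ⟨hI, hJ⟩), e2 f I J hI.1 hJ.1,
          map_mul, Nat.cast_mul, Real.mul_rpow (Nat.cast_nonneg _) (Nat.cast_nonneg _)]
        push_cast
        ring
      · rw [if_neg hJ, if_neg (fun h => hJ ((eul_cop B I J).1 h).2), mul_zero]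
    · rw [if_neg hI, if_neg (fun h => hI ((eul_cop B I J).1 h).1), zero_mul]
  · unfold lt
    rw [if_pos (eul_copT B), e1]
    simp
  · unfold lt
    rw [if_neg]
    intro h
    exact h.1 rfl
  · have h1 : Summable (fun I : Ideal (𝓞 F) => if I = ⊥ then (0 : ℝ) else
        (Ideal.absNorm I : ℝ) ^ (-s)) := by
      have hinj : Function.Injective (fun I : pz_I F => I.1) := Subtype.val_injective
      refine (hinj.summable_iff ?_).1 ?_
      · intro I hI
        rw [if_pos]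
        by_contra h
        exact hI ⟨⟨I, h⟩, rfl⟩
      · refine (pz_summable F hs).congr fun I => ?_
        show _ = if I.1 = ⊥ then (0 : ℝ) else (Ideal.absNorm I.1 : ℝ) ^ (-s)
        rw [if_neg I.2]
        rfl
    refine Summable.of_norm_bounded h1 fun I => ?_
    unfold lt
    by_cases hI : Cop B I
    · rw [if_pos hI, if_neg hI.1, norm_mul, eul_evn hEV f hf, one_mul, Complex.norm_real,
        Real.norm_of_nonneg (by positivity)]
    · rw [if_neg hI, norm_zero]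
      split_ifs
      · exact le_rfl
      · positivity

theorem eul_q (v : Pl F) : (1 : ℝ) ≤ (q v : ℝ) := pz_N_one (⟨v.asIdeal, v.ne_bot⟩ : pz_I F)

end

theorem st_EUL (hEV : ST_EV) : ST_EUL := by
  intro F _ _ B f hf
  obtain ⟨Q, hQ⟩ : ∃ Q : ℝ, Q = ∑' v : Pl F, (q v : ℝ) ^ (-2 : ℝ) := ⟨_, rfl⟩
  have hsQ : Summable (fun v : Pl F => (q v : ℝ) ^ (-2 : ℝ)) := pz_psum (by norm_num)
  refine ⟨B.card + Q / 2, fun s hs _ => ?_⟩
  have hM := eul_ltM hEV B f hf s hs
  obtain ⟨-, -, e3, -⟩ := hEV F ℂˣ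
  have hφ : ∀ v : Pl F, lt B f s v.asIdeal =
      if v ∈ B then 0 else (f v : ℂ) * (((q v : ℝ) ^ (-s) : ℝ) : ℂ) := by
    intro v
    unfold lt
    by_cases hv : v ∈ B
    · rw [if_pos hv, if_neg (fun h => (eul_copv B v).1 h hv)]
    · rw [if_neg hv, if_pos ((eul_copv B v).2 hv), e3 f v]
      rfl
  have hq : ∀ v : Pl F, 0 ≤ (q v : ℝ) ^ (-s) := fun v => by positivity
  have hq1 : ∀ v : Pl F, (q v : ℝ) ^ (-s) ≤ 1 := fun v =>
    Real.rpow_le_one_of_one_le_of_nonpos (eul_q v) (by linarith)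
  have hre : ∀ v : Pl F, |(f v : ℂ).re * (q v : ℝ) ^ (-s)| ≤ (q v : ℝ) ^ (-s) := by
    intro v
    rw [abs_mul, abs_of_nonneg (hq v)]
    have := Complex.abs_re_le_norm (f v : ℂ)
    rw [hf] at this
    exact mul_le_of_le_one_left (hq v) this
  have hsf : Summable (fun v : Pl F => (f v : ℂ).re * (q v : ℝ) ^ (-s)) :=
    Summable.of_norm_bounded (pz_psum hs) fun v => hre v
  have hreφ : ∀ v : Pl F, (lt B f s v.asIdeal).re =
      if v ∈ B then 0 else (f v : ℂ).re * (q v : ℝ) ^ (-s) := by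
    intro v
    rw [hφ]
    by_cases hv : v ∈ B
    · rw [if_pos hv, if_pos hv, Complex.zero_re]
    · rw [if_neg hv, if_neg hv, Complex.re_mul_ofReal]
  have hs1 : Summable (fun v : Pl F => (lt B f s v.asIdeal).re) := by
    refine Summable.of_norm_bounded (pz_psum hs) fun v => ?_
    rw [hreφ]
    by_cases hv : v ∈ B
    · rw [if_pos hv, norm_zero]
      exact hq v
    · rw [if_neg hv]
      exact hre v
  have hn : ∀ v : Pl F, ‖lt B f s v.asIdeal‖ ^ 2 ≤ (q v : ℝ) ^ (-2 : ℝ) := by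
    intro v
    rw [hφ]
    by_cases hv : v ∈ B
    · rw [if_pos hv, norm_zero, zero_pow two_ne_zero]
      positivity
    · rw [if_neg hv, norm_mul, hf, one_mul, Complex.norm_real, Real.norm_of_nonneg (hq v),
        ← Real.rpow_natCast, ← Real.rpow_mul (by positivity)]
      apply Real.rpow_le_rpow_of_exponent_le (eul_q v)
      push_cast
      linarith
  have hs2 : Summable (fun v : Pl F => ‖lt B f s v.asIdeal‖ ^ 2) :=
    Summable.of_nonneg_of_le (fun _ => by positivity) hn hsQ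
  have hmain := eul_main hM hs1 hs2
  have hL0 : ‖∑' I, lt B f s I‖ ≠ 0 := by
    intro h
    rw [h, zero_mul] at hmain
    linarith
  refine ⟨hM.sum, norm_ne_zero_iff.1 hL0, ?_⟩
  have hL : 0 < ‖∑' I, lt B f s I‖ := lt_of_le_of_ne (norm_nonneg _) (Ne.symm hL0)
  have h1 : 0 ≤ Real.log ‖∑' I, lt B f s I‖ + (-(∑' v : Pl F, (lt B f s v.asIdeal).re) +
      (∑' v : Pl F, ‖lt B f s v.asIdeal‖ ^ 2) / 2) := by
    have h2 := Real.log_nonneg hmain
    rw [Real.log_mul hL0 (Real.exp_pos _).ne', Real.log_exp] at h2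
    exact h2
  have h2 : ∑' v : Pl F, ‖lt B f s v.asIdeal‖ ^ 2 ≤ Q := by
    rw [hQ]
    exact hs2.tsum_le_tsum hn hsQ
  have h3 : ∑' v : Pl F, (f v : ℂ).re * (q v : ℝ) ^ (-s) ≤
      (∑' v : Pl F, (lt B f s v.asIdeal).re) + B.card := by
    have h4 : ∀ v : Pl F, (f v : ℂ).re * (q v : ℝ) ^ (-s) ≤
        (lt B f s v.asIdeal).re + if v ∈ B then (1 : ℝ) else 0 := by
      intro v
      rw [hreφ]
      by_cases hv : v ∈ B
      · rw [if_pos hv, if_pos hv, zero_add]
        exact (le_abs_self _).trans ((hre v).trans (hq1 v))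
      · rw [if_neg hv, if_neg hv, add_zero]
    have h5 : HasSum (fun v : Pl F => if v ∈ B then (1 : ℝ) else 0) B.card := by
      have h6 : HasSum (fun v : Pl F => if v ∈ B then (1 : ℝ) else 0)
          (∑ v ∈ B, (if v ∈ B then (1 : ℝ) else 0)) :=
        hasSum_sum_of_ne_finset_zero (fun v hv => if_neg hv)
      have h7 : ∑ v ∈ B, (if v ∈ B then (1 : ℝ) else 0) = B.card := by
        rw [Finset.sum_congr rfl fun v hv => if_pos hv, Finset.sum_const, nsmul_eq_mul, mul_one]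
      rw [h7] at h6
      exact h6
    have h6 := hsf.tsum_le_tsum h4 (hs1.add h5.summable)
    rw [hs1.tsum_add h5.summable, h5.tsum_eq] at h6
    exact h6
  linarith

end REC
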