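import Pool.Agent.Helper85.REC.Stmts10

/-!
# REC.ST_EXT: lattices in a direct sum   [helper34]
-/

set_option autoImplicit false
set_option maxHeartbeats 800000

open scoped Classical

namespace Pool.Agent.Helper34.REC

open _root_.REC

section

variable {O K V : Type} [CommRing O] [IsDomain O] [Field K] [Algebra O K] [IsFractionRing O K]
  [AddCommGroup V] [Module K V] [Module O V] [IsScalarTower O K V]

theorem exists_smul_mem (Λ : Submodule O V) (h : Submodule.span K (Λ : Set V) = ⊤) (v : V) :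
    ∃ a : O, a ≠ 0 ∧ a • v ∈ Λ := by
  have hv : v ∈ Submodule.span K (Λ : Set V) := by rw [h]; trivial
  induction hv using Submodule.span_induction with
  | mem x hx => exact ⟨1, one_ne_zero, by rw [one_smul]; exact hx⟩
  | zero => exact ⟨1, one_ne_zero, by rw [one_smul]; exact Λ.zero_mem⟩
  | add x y _ _ hx hy =>
    obtain ⟨a, ha, hax⟩ := hx
    obtain ⟨b, hb, hby⟩ := hy
    refine ⟨a * b, mul_ne_zero ha hb, ?_⟩
    rw [smul_add]
    refine Λ.add_mem ?_ ?_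
    · rw [mul_comm, mul_smul]
      exact Λ.smul_mem _ hax
    · rw [mul_smul]
      exact Λ.smul_mem _ hby
  | smul k x _ hx =>
    obtain ⟨a, ha, hax⟩ := hx
    obtain ⟨r, s, hs, hk⟩ := IsFractionRing.div_surjective (A := O) k
    have hs0 : s ≠ 0 := nonZeroDivisors.ne_zero hs
    have hs1 : algebraMap O K s ≠ 0 := by
      intro h1
      exact hs0 ((IsFractionRing.injective O K) (by rw [h1, map_zero]))
    refine ⟨s * a, mul_ne_zero hs0 ha, ?_⟩
    have h1 : (s * a) • (k • x) = r • (a • x) := by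
      rw [← hk, mul_comm s a, mul_smul, ← smul_assoc s, Algebra.smul_def s, mul_div_cancel₀ _ hs1,
        algebraMap_smul, smul_smul, smul_smul, mul_comm]
    rw [h1]
    exact Λ.smul_mem _ hax

omit [IsDomain O] in
theorem span_eq_top_of (Λ : Submodule O V) (h : ∀ v : V, ∃ a : O, a ≠ 0 ∧ a • v ∈ Λ) :
    Submodule.span K (Λ : Set V) = ⊤ := by
  rw [eq_top_iff]
  intro v _
  obtain ⟨a, ha, hav⟩ := h v
  have ha1 : algebraMap O K a ≠ 0 := by
    intro h1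
    exact ha ((IsFractionRing.injective O K) (by rw [h1, map_zero]))
  have h1 : v = (algebraMap O K a)⁻¹ • (a • v) := by
    rw [← algebraMap_smul K a v, smul_smul, inv_mul_cancel₀ ha1, one_smul]
  rw [h1]
  exact Submodule.smul_mem _ _ (Submodule.subset_span hav)

end

/-- finitely generated torsion modules are finite -/
theorem finite_of_torsion {O M : Type} [CommRing O] [AddCommGroup M] [Module O M]
    [Module.Finite O M] (hO : ∀ a : O, a ≠ 0 → Finite (O ⧸ Ideal.span {a}))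
    (hM : ∀ m : M, ∃ a : O, a ≠ 0 ∧ a • m = 0) : Finite M := by
  obtain ⟨k, s, hs⟩ := Module.Finite.exists_fin (R := O) (M := M)
  choose a ha ham using fun i : Fin k => hM (s i)
  have : ∀ i : Fin k, Finite (O ⧸ Ideal.span {a i}) := fun i => hO _ (ha i)
  have hsurj : Function.Surjective (fun c : (∀ i : Fin k, O ⧸ Ideal.span {a i}) =>
      ∑ i, (Quotient.out (c i)) • s i) := by
    intro m
    have hm : m ∈ Submodule.span O (Set.range s) := by rw [hs]; trivial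
    obtain ⟨c, hc⟩ := (Submodule.mem_span_range_iff_exists_fun O).1 hm
    refine ⟨fun i => Ideal.Quotient.mk _ (c i), ?_⟩
    rw [← hc]
    refine Finset.sum_congr rfl fun i _ => ?_
    have h1 : Ideal.Quotient.mk (Ideal.span {a i})
        (Quotient.out (Ideal.Quotient.mk (Ideal.span {a i}) (c i))) =
        Ideal.Quotient.mk (Ideal.span {a i}) (c i) := Quotient.out_eq _
    rw [Ideal.Quotient.eq, Ideal.mem_span_singleton] at h1
    obtain ⟨d, hd⟩ := h1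
    have h2 : (Quotient.out (Ideal.Quotient.mk (Ideal.span {a i}) (c i)) - c i) • s i = 0 := by
      rw [hd, mul_comm, mul_smul, ham, smul_zero]
    rw [sub_smul] at h2
    exact sub_eq_zero.1 h2
  exact Finite.of_surjective _ hsurj

section

variable {O K V₁ V₂ X : Type} [CommRing O] [IsDomain O] [IsPrincipalIdealRing O] [Field K]
  [Algebra O K] [IsFractionRing O K] [AddCommGroup V₁] [Module K V₁] [Module O V₁]
  [IsScalarTower O K V₁] [FiniteDimensional K V₁] [AddCommGroup V₂] [Module K V₂] [Module O V₂]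
  [IsScalarTower O K V₂] [FiniteDimensional K V₂]

/-- the maps of `L₂` to `L₁` -/
def homLat (K : Type) [Field K] [Algebra O K] [Module K V₁] [IsScalarTower O K V₁]
    [Module K V₂] [IsScalarTower O K V₂] (L₁ : Submodule O V₁) (L₂ : Submodule O V₂) :
    Submodule O (V₂ →ₗ[K] V₁) where
  carrier := {ψ | ∀ x ∈ L₂, ψ x ∈ L₁}
  add_mem' := fun ha hb x hx => L₁.add_mem (ha x hx) (hb x hx)
  zero_mem' := fun _ _ => L₁.zero_mem
  smul_mem' := fun c _ ha x hx => L₁.smul_mem c (ha x hx)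

/-- the lattice with the section `ψ` -/
def lam (L₁ : Submodule O V₁) (L₂ : Submodule O V₂) (ψ : V₂ →ₗ[K] V₁) :
    Submodule O (V₁ × V₂) where
  carrier := {p | p.2 ∈ L₂ ∧ p.1 - ψ p.2 ∈ L₁}
  add_mem' := fun {a b} ha hb => ⟨L₂.add_mem ha.1 hb.1, by
    have h1 : (a + b).1 - ψ (a + b).2 = (a.1 - ψ a.2) + (b.1 - ψ b.2) := by
      rw [Prod.fst_add, Prod.snd_add, map_add]
      abel
    rw [h1]
    exact L₁.add_mem ha.2 hb.2⟩
  zero_mem' := ⟨L₂.zero_mem, by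
    rw [Prod.fst_zero, Prod.snd_zero, map_zero, sub_zero]
    exact L₁.zero_mem⟩
  smul_mem' := fun c a ha => ⟨L₂.smul_mem c ha.1, by
    have h1 : (c • a).1 - ψ (c • a).2 = c • (a.1 - ψ a.2) := by
      rw [Prod.smul_fst, Prod.smul_snd, smul_sub, LinearMap.map_smul_of_tower]
    rw [h1]
    exact L₁.smul_mem c ha.2⟩

/-- the unipotent automorphism -/
def unip (f : V₂ →ₗ[K] V₁) : (V₁ × V₂) ≃ₗ[K] (V₁ × V₂) where
  toFun p := (p.1 + f p.2, p.2)
  invFun p := (p.1 - f p.2, p.2)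
  map_add' p q := by
    ext1
    · rw [Prod.fst_add, Prod.snd_add, map_add, Prod.fst_add]
      exact add_add_add_comm _ _ _ _
    · rfl
  map_smul' c p := by
    ext1
    · rw [Prod.smul_fst, Prod.smul_snd, map_smul, RingHom.id_apply, Prod.smul_fst, smul_add]
    · rfl
  left_inv p := by
    ext1
    · exact add_sub_cancel_right _ _
    · rfl
  right_inv p := by
    ext1
    · exact sub_add_cancel _ _
    · rfl

omit [IsDomain O] [IsPrincipalIdealRing O] [IsFractionRing O K] [FiniteDimensional K V₁]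
  [FiniteDimensional K V₂] in
theorem lam_map {L₁ : Submodule O V₁} {L₂ : Submodule O V₂} {ψ ψ' f h : V₂ →ₗ[K] V₁}
    (hh : h ∈ homLat K L₁ L₂) (he : ψ' = ψ + f + h) :
    (lam L₁ L₂ ψ).map (((unip f : (V₁ × V₂) ≃ₗ[K] (V₁ × V₂)) :
      (V₁ × V₂) →ₗ[K] (V₁ × V₂)).restrictScalars O) = lam L₁ L₂ ψ' := by
  ext p
  rw [Submodule.mem_map]
  constructor
  · rintro ⟨q, hq, rfl⟩
    refine ⟨hq.1, ?_⟩
    have h1 : (q.1 + f q.2) - ψ' q.2 = (q.1 - ψ q.2) - h q.2 := by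
      rw [he, LinearMap.add_apply, LinearMap.add_apply]
      abel
    change (q.1 + f q.2) - ψ' q.2 ∈ L₁
    rw [h1]
    exact L₁.sub_mem hq.2 (hh _ hq.1)
  · intro hp
    refine ⟨(p.1 - f p.2, p.2), ⟨hp.1, ?_⟩, ?_⟩
    · have h1 : (p.1 - f p.2) - ψ p.2 = (p.1 - ψ' p.2) + h p.2 := by
        rw [he, LinearMap.add_apply, LinearMap.add_apply]
        abel
      change (p.1 - f p.2) - ψ p.2 ∈ L₁
      rw [h1]
      exact L₁.add_mem hp.2 (hh _ hp.1)
    · ext1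
      · exact sub_add_cancel _ _
      · rfl

/-- the derivation -/
def dlt (ρ₁ : X → V₁ →ₗ[K] V₁) (ρ₂ : X → V₂ →ₗ[K] V₂) (g : X) :
    (V₂ →ₗ[K] V₁) →ₗ[K] (V₂ →ₗ[K] V₁) where
  toFun ψ := ψ ∘ₗ ρ₂ g - ρ₁ g ∘ₗ ψ
  map_add' a b := by
    rw [LinearMap.add_comp, LinearMap.comp_add]
    abel
  map_smul' c a := by
    rw [LinearMap.smul_comp, LinearMap.comp_smul, RingHom.id_apply, smul_sub]

omit [IsDomain O] [IsPrincipalIdealRing O] [IsFractionRing O K] in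
/-- finitely many elements suffice -/
theorem exists_finset {D E : Type} [AddCommGroup D] [Module K D] [FiniteDimensional K D]
    [AddCommGroup E] [Module K E] (δ : X → D →ₗ[K] E) :
    ∃ s : Finset X, ∀ ψ, (∀ g ∈ s, δ g ψ = 0) → ∀ g, δ g ψ = 0 := by
  obtain ⟨W, ⟨s, rfl⟩, hmin⟩ := WellFounded.has_min (wellFounded_lt (α := Submodule K D))
    (Set.range fun s : Finset X => ⨅ g ∈ s, LinearMap.ker (δ g)) ⟨_, ∅, rfl⟩
  refine ⟨s, fun ψ hψ g => ?_⟩
  have h1 : (⨅ g' ∈ insert g s, LinearMap.ker (δ g')) ≤ ⨅ g' ∈ s, LinearMap.ker (δ g') :=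
    le_iInf₂ fun g' hg' => iInf₂_le g' (Finset.mem_insert_of_mem hg')
  have h2 := hmin _ ⟨insert g s, rfl⟩
  have h3 : (⨅ g' ∈ s, LinearMap.ker (δ g')) ≤ ⨅ g' ∈ insert g s, LinearMap.ker (δ g') := by
    by_contra h4
    exact h2 (lt_of_le_not_ge h1 h4)
  have h4 : ψ ∈ ⨅ g' ∈ s, LinearMap.ker (δ g') := by
    rw [Submodule.mem_iInf]
    intro g'
    rw [Submodule.mem_iInf]
    intro hg'
    exact hψ g' hg'
  have h5 := h3 h4
  rw [Submodule.mem_iInf] at h5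
  have h6 := h5 g
  rw [Submodule.mem_iInf] at h6
  exact h6 (Finset.mem_insert_self g s)

omit [IsDomain O] [IsFractionRing O K] [FiniteDimensional K V₁] [FiniteDimensional K V₂] in
theorem homLat_noeth {L₁ : Submodule O V₁} {L₂ : Submodule O V₂} (hf₁ : L₁.FG) (hf₂ : L₂.FG)
    (hs₂ : Submodule.span K (L₂ : Set V₂) = ⊤) : IsNoetherian O (homLat K L₁ L₂) := by
  obtain ⟨k, s, hs⟩ := Submodule.fg_iff_exists_fin_generating_family.1 hf₂
  have hmem : ∀ i, s i ∈ L₂ := fun i => by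
    rw [← hs]
    exact Submodule.subset_span ⟨i, rfl⟩
  have hN : IsNoetherian O L₁ := isNoetherian_of_fg_of_noetherian L₁ hf₁
  let Φ : homLat K L₁ L₂ →ₗ[O] (Fin k → L₁) :=
    { toFun := fun ψ i => ⟨ψ.1 (s i), ψ.2 _ (hmem i)⟩
      map_add' := fun _ _ => rfl
      map_smul' := fun _ _ => rfl }
  refine isNoetherian_of_injective Φ ?_
  intro ψ ψ' h
  apply Subtype.ext
  have key : ∀ x ∈ L₂, ψ.1 x = ψ'.1 x := by
    intro x hx
    rw [← hs] at hx
    induction hx using Submodule.span_induction with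
    | mem x hx =>
      obtain ⟨i, rfl⟩ := hx
      exact congrArg Subtype.val (congrFun h i)
    | zero => rw [map_zero, map_zero]
    | add x y _ _ hx hy => rw [map_add, map_add, hx, hy]
    | smul a x _ hx => rw [LinearMap.map_smul_of_tower, LinearMap.map_smul_of_tower, hx]
  exact LinearMap.ext_on hs₂ key

omit [IsPrincipalIdealRing O] [FiniteDimensional K V₁] [FiniteDimensional K V₂] in
theorem exists_smul_homLat {L₁ : Submodule O V₁} {L₂ : Submodule O V₂} (hf₂ : L₂.FG)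
    (hs₁ : Submodule.span K (L₁ : Set V₁) = ⊤) (ψ : V₂ →ₗ[K] V₁) :
    ∃ a : O, a ≠ 0 ∧ a • ψ ∈ homLat K L₁ L₂ := by
  obtain ⟨k, s, hs⟩ := Submodule.fg_iff_exists_fin_generating_family.1 hf₂
  choose a ha ham using fun i : Fin k => exists_smul_mem L₁ hs₁ (ψ (s i))
  refine ⟨∏ i, a i, Finset.prod_ne_zero_iff.2 fun i _ => ha i, ?_⟩
  intro x hx
  rw [← hs] at hx
  change (∏ i, a i) • ψ x ∈ L₁
  induction hx using Submodule.span_induction with
  | mem x hx =>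
    obtain ⟨i, rfl⟩ := hx
    obtain ⟨c, hc⟩ := Finset.dvd_prod_of_mem a (Finset.mem_univ i)
    rw [hc, mul_comm, mul_smul]
    exact L₁.smul_mem c (ham i)
  | zero =>
    rw [map_zero, smul_zero]
    exact L₁.zero_mem
  | add x y _ _ hx hy =>
    rw [map_add, smul_add]
    exact L₁.add_mem hx hy
  | smul c x _ hx =>
    rw [LinearMap.map_smul_of_tower, smul_comm]
    exact L₁.smul_mem c hx

/-- the maps which commute with the actions -/
def krn (O : Type) [CommRing O] [Algebra O K] [Module O V₁] [IsScalarTower O K V₁]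
    (ρ₁ : X → V₁ →ₗ[K] V₁) (ρ₂ : X → V₂ →ₗ[K] V₂) : Submodule O (V₂ →ₗ[K] V₁) where
  carrier := {ψ | ∀ g, dlt ρ₁ ρ₂ g ψ = 0}
  add_mem' := fun ha hb g => by rw [map_add, ha g, hb g, add_zero]
  zero_mem' := fun g => map_zero _
  smul_mem' := fun c _ ha g => by rw [LinearMap.map_smul_of_tower, ha g, smul_zero]

/-- the sections with stable lattices -/
def zed (ρ₁ : X → V₁ →ₗ[K] V₁) (ρ₂ : X → V₂ →ₗ[K] V₂) (L₁ : Submodule O V₁)
    (L₂ : Submodule O V₂) : Submodule O (V₂ →ₗ[K] V₁) where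
  carrier := {ψ | ∀ g, dlt ρ₁ ρ₂ g ψ ∈ homLat K L₁ L₂}
  add_mem' := fun ha hb g => by
    rw [map_add]
    exact Submodule.add_mem _ (ha g) (hb g)
  zero_mem' := fun g => by
    rw [map_zero]
    exact Submodule.zero_mem _
  smul_mem' := fun c _ ha g => by
    rw [LinearMap.map_smul_of_tower]
    exact Submodule.smul_mem _ c (ha g)

theorem finite_cosets (hO : ∀ a : O, a ≠ 0 → Finite (O ⧸ Ideal.span {a}))
    {L₁ : Submodule O V₁} {L₂ : Submodule O V₂} (hf₁ : L₁.FG) (hf₂ : L₂.FG)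
    (hs₁ : Submodule.span K (L₁ : Set V₁) = ⊤) (hs₂ : Submodule.span K (L₂ : Set V₂) = ⊤)
    (ρ₁ : X → V₁ →ₗ[K] V₁) (ρ₂ : X → V₂ →ₗ[K] V₂) :
    (((krn O ρ₁ ρ₂ ⊔ homLat K L₁ L₂).mkQ) '' (zed ρ₁ ρ₂ L₁ L₂ : Set (V₂ →ₗ[K] V₁))).Finite := by
  obtain ⟨s, hs⟩ := exists_finset (dlt ρ₁ ρ₂)
  have hN : IsNoetherian O (homLat K L₁ L₂) := homLat_noeth hf₁ hf₂ hs₂
  let Δ : zed ρ₁ ρ₂ L₁ L₂ →ₗ[O] (s → homLat K L₁ L₂) :=
    { toFun := fun z g => ⟨dlt ρ₁ ρ₂ g z.1, z.2 g⟩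
      map_add' := fun a b => by
        funext g
        apply Subtype.ext
        exact map_add (dlt ρ₁ ρ₂ g) a.1 b.1
      map_smul' := fun c a => by
        funext g
        apply Subtype.ext
        exact LinearMap.map_smul_of_tower (dlt ρ₁ ρ₂ g) c a.1 }
  let π : zed ρ₁ ρ₂ L₁ L₂ →ₗ[O] _ := (krn O ρ₁ ρ₂ ⊔ homLat K L₁ L₂).mkQ ∘ₗ (zed ρ₁ ρ₂ L₁ L₂).subtype
  have hker : LinearMap.ker Δ ≤ LinearMap.ker π := by
    intro z hz
    rw [LinearMap.mem_ker] at hz ⊢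
    have h1 : z.1 ∈ krn O ρ₁ ρ₂ := by
      apply hs
      intro g hg
      exact congrArg Subtype.val (congrFun hz ⟨g, hg⟩)
    change (krn O ρ₁ ρ₂ ⊔ homLat K L₁ L₂).mkQ z.1 = 0
    rw [Submodule.mkQ_apply, Submodule.Quotient.mk_eq_zero]
    exact Submodule.mem_sup_left h1
  have hfin1 : Module.Finite O (zed ρ₁ ρ₂ L₁ L₂ ⧸ LinearMap.ker Δ) :=
    Module.Finite.equiv (LinearMap.quotKerEquivRange Δ).symm
  have hfin2 : Module.Finite O (LinearMap.range ((LinearMap.ker Δ).liftQ π hker)) :=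
    Module.Finite.range _
  rw [Submodule.range_liftQ] at hfin2
  have hfin3 : Finite (LinearMap.range π) := by
    apply finite_of_torsion hO
    rintro ⟨_, z, rfl⟩
    obtain ⟨a, ha, haz⟩ := exists_smul_homLat hf₂ hs₁ z.1
    refine ⟨a, ha, ?_⟩
    apply Subtype.ext
    change a • (krn O ρ₁ ρ₂ ⊔ homLat K L₁ L₂).mkQ z.1 = 0
    rw [← map_smul, Submodule.mkQ_apply, Submodule.Quotient.mk_eq_zero]
    exact Submodule.mem_sup_right haz
  have h1 : (((krn O ρ₁ ρ₂ ⊔ homLat K L₁ L₂).mkQ) '' (zed ρ₁ ρ₂ L₁ L₂ : Set (V₂ →ₗ[K] V₁))) =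
      (LinearMap.range π : Set _) := by
    ext q
    constructor
    · rintro ⟨z, hz, rfl⟩
      exact ⟨⟨z, hz⟩, rfl⟩
    · rintro ⟨z, rfl⟩
      exact ⟨z.1, z.2, rfl⟩
  rw [h1]
  exact Set.toFinite _

omit [FiniteDimensional K V₁] [FiniteDimensional K V₂] in
/-- a lattice with given intersection and projection has a section -/
theorem exists_lam {L₁ : Submodule O V₁} {L₂ : Submodule O V₂} (hf₂ : L₂.FG)
    (hs₂ : Submodule.span K (L₂ : Set V₂) = ⊤) (Λ : Submodule O (V₁ × V₂))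
    (h1 : ∀ a : V₁, (a, (0 : V₂)) ∈ Λ ↔ a ∈ L₁) (h2 : ∀ x : V₂, x ∈ L₂ ↔ ∃ a, (a, x) ∈ Λ) :
    ∃ ψ : V₂ →ₗ[K] V₁, Λ = lam L₁ L₂ ψ := by
  have htf : Module.IsTorsionFree O V₂ := .trans_faithfulSMul O K V₂
  have hfin : Module.Finite O L₂ := Module.Finite.iff_fg.2 hf₂
  let b := Module.Free.chooseBasis O L₂
  have hbs : Submodule.span O (Set.range fun i => (b i : V₂)) = L₂ := by
    have h3 := congrArg (Submodule.map L₂.subtype) b.span_eq
    rw [Submodule.map_span, Submodule.map_top, Submodule.range_subtype, ← Set.range_comp] at h3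
    exact h3
  have hli : LinearIndependent K (fun i => (b i : V₂)) := by
    rw [← LinearIndependent.iff_fractionRing O K]
    exact b.linearIndependent.map' L₂.subtype (Submodule.ker_subtype _)
  have hsp : ⊤ ≤ Submodule.span K (Set.range fun i => (b i : V₂)) := by
    rw [← hs₂, Submodule.span_le]
    intro x hx
    rw [SetLike.mem_coe, ← hbs] at hx
    exact Submodule.span_le_restrictScalars O K _ hx
  choose v hv using fun i => (h2 (b i)).1 (b i).2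
  let ψ : V₂ →ₗ[K] V₁ := (Module.Basis.mk hli hsp).constr K v
  have hψ : ∀ i, ψ (b i : V₂) = v i := by
    intro i
    have h3 := (Module.Basis.mk hli hsp).constr_basis K v i
    rw [Module.Basis.mk_apply] at h3
    exact h3
  have hmem : ∀ x ∈ L₂, (ψ x, x) ∈ Λ := by
    intro x hx
    rw [← hbs] at hx
    induction hx using Submodule.span_induction with
    | mem x hx =>
      obtain ⟨i, rfl⟩ := hx
      change (ψ (b i : V₂), (b i : V₂)) ∈ Λ
      rw [hψ]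
      exact hv i
    | zero =>
      rw [map_zero]
      exact Λ.zero_mem
    | add x y _ _ hx hy =>
      rw [map_add]
      exact Λ.add_mem hx hy
    | smul a x _ hx =>
      rw [LinearMap.map_smul_of_tower]
      exact Λ.smul_mem a hx
  refine ⟨ψ, ?_⟩
  ext p
  constructor
  · intro hp
    have h4 : p.2 ∈ L₂ := (h2 _).2 ⟨p.1, hp⟩
    refine ⟨h4, (h1 _).1 ?_⟩
    have h5 := Λ.sub_mem hp (hmem _ h4)
    have h6 : p - (ψ p.2, p.2) = (p.1 - ψ p.2, 0) := by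
      ext1
      · rfl
      · exact sub_self _
    rw [h6] at h5
    exact h5
  · intro hp
    have h5 := Λ.add_mem ((h1 _).2 hp.2) (hmem _ hp.1)
    have h6 : (p.1 - ψ p.2, (0 : V₂)) + (ψ p.2, p.2) = p := by
      ext1
      · exact sub_add_cancel _ _
      · exact zero_add _
    rw [h6] at h5
    exact h5

theorem ext_key (hO : ∀ a : O, a ≠ 0 → Finite (O ⧸ Ideal.span {a}))
    (ρ₁ : X → V₁ →ₗ[K] V₁) (ρ₂ : X → V₂ →ₗ[K] V₂) (L₁ : Submodule O V₁) (L₂ : Submodule O V₂) :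
    ∃ T : Set (Submodule O (V₁ × V₂)), T.Finite ∧ ∀ Λ : Submodule O (V₁ × V₂), L₁.FG → L₂.FG →
      Submodule.span K (L₁ : Set V₁) = ⊤ → Submodule.span K (L₂ : Set V₂) = ⊤ →
      (∀ x, ∀ v ∈ Λ, (ρ₁ x).prodMap (ρ₂ x) v ∈ Λ) →
      (∀ a : V₁, (a, (0 : V₂)) ∈ Λ ↔ a ∈ L₁) → (∀ x : V₂, x ∈ L₂ ↔ ∃ a, (a, x) ∈ Λ) →
      ∃ f : (V₁ × V₂) ≃ₗ[K] (V₁ × V₂),
        (∀ x v, f ((ρ₁ x).prodMap (ρ₂ x) v) = (ρ₁ x).prodMap (ρ₂ x) (f v)) ∧
        Λ.map ((f : (V₁ × V₂) →ₗ[K] (V₁ × V₂)).restrictScalars O) ∈ T := by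
  by_cases hL : L₁.FG ∧ L₂.FG ∧ Submodule.span K (L₁ : Set V₁) = ⊤ ∧
      Submodule.span K (L₂ : Set V₂) = ⊤
  · obtain ⟨hf₁, hf₂, hs₁, hs₂⟩ := hL
    refine ⟨(fun q => lam L₁ L₂ (Quotient.out q)) ''
      (((krn O ρ₁ ρ₂ ⊔ homLat K L₁ L₂).mkQ) '' (zed ρ₁ ρ₂ L₁ L₂ : Set (V₂ →ₗ[K] V₁))),
      (finite_cosets hO hf₁ hf₂ hs₁ hs₂ ρ₁ ρ₂).image _, ?_⟩
    intro Λ _ _ _ _ hst h1 h2
    obtain ⟨ψ, hψ⟩ := exists_lam hf₂ hs₂ Λ h1 h2
    have hz : ψ ∈ zed ρ₁ ρ₂ L₁ L₂ := by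
      intro g x hx
      have h3 : (ψ x, x) ∈ Λ := by
        rw [hψ]
        refine ⟨hx, ?_⟩
        change ψ x - ψ x ∈ L₁
        rw [sub_self]
        exact L₁.zero_mem
      have h4 := hst g _ h3
      rw [hψ] at h4
      have h5 : dlt ρ₁ ρ₂ g ψ x = -(ρ₁ g (ψ x) - ψ (ρ₂ g x)) := (neg_sub _ _).symm
      rw [h5]
      exact L₁.neg_mem h4.2
    have h3 : (krn O ρ₁ ρ₂ ⊔ homLat K L₁ L₂).mkQ
        (Quotient.out ((krn O ρ₁ ρ₂ ⊔ homLat K L₁ L₂).mkQ ψ)) =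
        (krn O ρ₁ ρ₂ ⊔ homLat K L₁ L₂).mkQ ψ := Quotient.out_eq _
    rw [Submodule.mkQ_apply, Submodule.mkQ_apply, Submodule.Quotient.eq,
      Submodule.mem_sup] at h3
    obtain ⟨f, hf, h, hh, hfh⟩ := h3
    refine ⟨unip f, ?_, ?_⟩
    · intro x v
      have h4 : dlt ρ₁ ρ₂ x f v.2 = 0 := by
        rw [hf x]
        rfl
      have h5 : f (ρ₂ x v.2) = ρ₁ x (f v.2) := sub_eq_zero.1 h4
      ext1
      · change ρ₁ x v.1 + f (ρ₂ x v.2) = ρ₁ x (v.1 + f v.2)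
        rw [h5, map_add]
      · rfl
    · rw [hψ, lam_map hh (ψ' := Quotient.out ((krn O ρ₁ ρ₂ ⊔ homLat K L₁ L₂).mkQ ψ))
        (by rw [add_assoc, hfh]; exact (add_sub_cancel _ _).symm)]
      exact ⟨_, ⟨ψ, hz, rfl⟩, rfl⟩
  · refine ⟨∅, Set.finite_empty, ?_⟩
    intro Λ h1 h2 h3 h4
    exact absurd ⟨h1, h2, h3, h4⟩ hL

end

theorem st_EXT : ST_EXT := by
  intro O K V₁ V₂ X _ _ _ _ _ _ _ _ _ _ _ _ _ _ _ _ hO ρ₁ ρ₂ hF₁ hF₂
  obtain ⟨T₁, hT₁, hF₁⟩ := hF₁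
  obtain ⟨T₂, hT₂, hF₂⟩ := hF₂
  choose T hT hTT using ext_key (O := O) (K := K) hO ρ₁ ρ₂
  refine ⟨⋃ L₁ ∈ T₁, ⋃ L₂ ∈ T₂, T L₁ L₂,
    hT₁.biUnion fun L₁ _ => hT₂.biUnion fun L₂ _ => hT L₁ L₂, ?_⟩
  intro Λ hΛ hs hst
  have hN : IsNoetherian O Λ := isNoetherian_of_fg_of_noetherian Λ hΛ
  -- the two lattices
  let Λ₁ : Submodule O V₁ := Λ.comap (LinearMap.inl O V₁ V₂)
  let Λ₂ : Submodule O V₂ := Λ.map (LinearMap.snd O V₁ V₂)
  have hΛ₁ : Λ₁.FG := by
    let j : Λ₁ →ₗ[O] Λ := (LinearMap.inl O V₁ V₂ ∘ₗ Λ₁.subtype).codRestrict Λ fun x => x.2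
    have hj : Function.Injective j := by
      intro x y hxy
      apply Subtype.ext
      exact congrArg Prod.fst (congrArg Subtype.val hxy)
    have hN₁ : IsNoetherian O Λ₁ := isNoetherian_of_injective j hj
    exact Module.Finite.iff_fg.1 inferInstance
  have hΛ₂ : Λ₂.FG := hΛ.map _
  have hs₁ : Submodule.span K (Λ₁ : Set V₁) = ⊤ := by
    apply span_eq_top_of
    intro v
    obtain ⟨a, ha, hav⟩ := exists_smul_mem Λ hs ((v, 0) : V₁ × V₂)
    refine ⟨a, ha, ?_⟩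
    have h1 : a • ((v, 0) : V₁ × V₂) = (a • v, 0) := by
      ext1
      · rfl
      · exact smul_zero _
    rw [h1] at hav
    exact hav
  have hs₂ : Submodule.span K (Λ₂ : Set V₂) = ⊤ := by
    apply span_eq_top_of
    intro v
    obtain ⟨a, ha, hav⟩ := exists_smul_mem Λ hs ((0, v) : V₁ × V₂)
    exact ⟨a, ha, _, hav, rfl⟩
  obtain ⟨f₁, hf₁, hL₁⟩ := hF₁ Λ₁ hΛ₁ hs₁ (by
    intro x v hv
    have h1 := hst x _ hv
    have h2 : (ρ₁ x).prodMap (ρ₂ x) (LinearMap.inl O V₁ V₂ v) = LinearMap.inl O V₁ V₂ (ρ₁ x v) := by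
      ext1
      · rfl
      · exact map_zero (ρ₂ x)
    rw [h2] at h1
    exact h1)
  obtain ⟨f₂, hf₂, hL₂⟩ := hF₂ Λ₂ hΛ₂ hs₂ (by
    rintro x _ ⟨v, hv, rfl⟩
    exact ⟨_, hst x _ hv, rfl⟩)
  set L₁ : Submodule O V₁ := Λ₁.map ((f₁ : V₁ →ₗ[K] V₁).restrictScalars O) with hL₁d
  set L₂ : Submodule O V₂ := Λ₂.map ((f₂ : V₂ →ₗ[K] V₂).restrictScalars O) with hL₂d
  let F : (V₁ × V₂) ≃ₗ[K] (V₁ × V₂) := f₁.prodCongr f₂
  have hF : ∀ p : V₁ × V₂, F p = (f₁ p.1, f₂ p.2) := fun p => rfl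
  obtain ⟨u, hu, huT⟩ := hTT L₁ L₂ (Λ.map ((F : (V₁ × V₂) →ₗ[K] (V₁ × V₂)).restrictScalars O))
    (hΛ₁.map _) (hΛ₂.map _) (by
      apply span_eq_top_of
      intro v
      obtain ⟨a, ha, hav⟩ := exists_smul_mem Λ₁ hs₁ (f₁.symm v)
      refine ⟨a, ha, _, hav, ?_⟩
      change f₁ (a • f₁.symm v) = a • v
      rw [← LinearEquiv.coe_coe, LinearMap.map_smul_of_tower, LinearEquiv.coe_coe,
        LinearEquiv.apply_symm_apply]) (by
      apply span_eq_top_of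
      intro v
      obtain ⟨a, ha, hav⟩ := exists_smul_mem Λ₂ hs₂ (f₂.symm v)
      refine ⟨a, ha, _, hav, ?_⟩
      change f₂ (a • f₂.symm v) = a • v
      rw [← LinearEquiv.coe_coe, LinearMap.map_smul_of_tower, LinearEquiv.coe_coe,
        LinearEquiv.apply_symm_apply]) (by
      rintro x _ ⟨v, hv, rfl⟩
      refine ⟨_, hst x v hv, ?_⟩
      change F ((ρ₁ x).prodMap (ρ₂ x) v) = (ρ₁ x).prodMap (ρ₂ x) (F v)
      ext1
      · exact hf₁ x v.1
      · exact hf₂ x v.2) (by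
      intro a
      constructor
      · rintro ⟨v, hv, hva⟩
        change F v = (a, 0) at hva
        rw [hF] at hva
        have h1 : f₁ v.1 = a := congrArg Prod.fst hva
        have h2 : v.2 = 0 := by
          have h3 : f₂ v.2 = 0 := congrArg Prod.snd hva
          exact (LinearEquiv.map_eq_zero_iff f₂).1 h3
        refine ⟨v.1, ?_, h1⟩
        change (v.1, (0 : V₂)) ∈ Λ
        rw [← h2]
        exact hv
      · rintro ⟨v, hv, hva⟩
        refine ⟨(v, 0), hv, ?_⟩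
        change F (v, 0) = (a, 0)
        rw [hF]
        ext1
        · exact hva
        · exact map_zero f₂) (by
      intro x
      constructor
      · rintro ⟨_, ⟨v, hv, rfl⟩, hva⟩
        refine ⟨f₁ v.1, v, hv, ?_⟩
        change F v = (f₁ v.1, x)
        rw [hF, ← hva]
        rfl
      · rintro ⟨a, v, hv, hva⟩
        exact ⟨v.2, ⟨v, hv, rfl⟩, congrArg Prod.snd hva⟩)
  refine ⟨F.trans u, ?_, ?_⟩
  · intro x v
    have h1 : F ((ρ₁ x).prodMap (ρ₂ x) v) = (ρ₁ x).prodMap (ρ₂ x) (F v) := by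
      ext1
      · exact hf₁ x v.1
      · exact hf₂ x v.2
    rw [LinearEquiv.trans_apply, LinearEquiv.trans_apply, h1, hu]
  · rw [Set.mem_iUnion₂]
    refine ⟨L₁, hL₁, ?_⟩
    rw [Set.mem_iUnion₂]
    refine ⟨L₂, hL₂, ?_⟩
    rw [← Submodule.map_comp] at huT
    exact huT

end Pool.Agent.Helper34.REC
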