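import Pool.Agent.Helper34.REC.EUL

/-!
# GEN: the partial zeta function of a ray class as a sum over elements
-/

set_option autoImplicit false

open scoped Classical
open NumberField Filter Topology

namespace REC

open Pool.Agent.Helper13.ZL (Pl q HasMean)

section

variable {F : Type} [Field F] [NumberField F]

theorem gen_tot (x : F) :
    TotPos x ↔ ∀ w : {w : InfinitePlace F // w.IsReal}, 0 < (mixedEmbedding F x).1 w := by
  constructor
  · intro h w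
    rw [mixedEmbedding.mixedEmbedding_apply_isReal]
    exact h _
  · intro h σ
    obtain ⟨φ, hφ⟩ : ∃ φ : F →+* ℂ, φ = Complex.ofRealHom.comp σ := ⟨_, rfl⟩
    have hφx : ∀ y, φ y = ((σ y : ℝ) : ℂ) := by
      intro y
      rw [hφ]
      rfl
    have hr : ComplexEmbedding.IsReal φ := by
      rw [ComplexEmbedding.isReal_iff]
      ext y
      rw [ComplexEmbedding.conjugate_coe_eq, hφx, Complex.conj_ofReal]
    have h1 := h ⟨InfinitePlace.mk φ, InfinitePlace.isReal_mk_iff.2 hr⟩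
    rw [mixedEmbedding.mixedEmbedding_apply_isReal] at h1
    have h2 : ((InfinitePlace.embedding_of_isReal (InfinitePlace.isReal_mk_iff.2 hr) x : ℝ) : ℂ) =
        ((σ x : ℝ) : ℂ) := by
      rw [InfinitePlace.embedding_of_isReal_apply, InfinitePlace.embedding_mk_eq_of_isReal hr, hφx]
    rw [← Complex.ofReal_injective h2]
    exact h1

theorem gen_norm (x : 𝓞 F) : mixedEmbedding.norm (mixedEmbedding F (x : F)) =
    (Ideal.absNorm (Ideal.span {x}) : ℝ) := by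
  rw [mixedEmbedding.norm_eq_norm, Ideal.absNorm_span_singleton, Nat.cast_natAbs,
    ← Rat.cast_intCast, Int.cast_abs, Algebra.coe_norm_int]

theorem gen_cop1 {B : Finset (Pl F)} {I : Ideal (𝓞 F)} (h : Cop B I) {v : Pl F} (hv : v ∈ B) :
    IsCoprime I v.asIdeal := by
  have hm : v.asIdeal.IsMaximal := v.isPrime.isMaximal v.ne_bot
  rw [Ideal.isCoprime_iff_sup_eq]
  apply hm.out.2
  refine lt_of_le_of_ne le_sup_right fun h1 => h.2 v hv ?_
  rw [h1]
  exact le_sup_left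

theorem gen_cop {B : Finset (Pl F)} {I : Ideal (𝓞 F)} (h : Cop B I) (N : ℕ) :
    IsCoprime I (∏ v ∈ B, v.asIdeal ^ N) :=
  IsCoprime.prod_right fun _ hv => (gen_cop1 h hv).pow_right

theorem gen_mem (B : Finset (Pl F)) (N : ℕ) (x : 𝓞 F) :
    x ∈ ∏ v ∈ B, v.asIdeal ^ N ↔ ∀ v ∈ B, x ∈ v.asIdeal ^ N := by
  constructor
  · intro h v hv
    exact Ideal.le_of_dvd (Finset.dvd_prod_of_mem (fun v : Pl F => v.asIdeal ^ N) hv) h
  · intro h
    rw [← Ideal.dvd_span_singleton]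
    refine Finset.prod_dvd_of_coprime ?_ ?_
    · intro v _ w _ hvw
      show IsCoprime (v.asIdeal ^ N) (w.asIdeal ^ N)
      apply IsCoprime.pow
      apply gen_cop1 (B := {w}) _ (Finset.mem_singleton_self w)
      rw [eul_copv, Finset.mem_singleton]
      exact hvw
    · intro v hv
      rw [Ideal.dvd_span_singleton]
      exact h v hv

theorem gen_rayCop {B : Finset (Pl F)} {N : ℕ} (hN : 0 < N) {z : 𝓞 F} (hz : Ray B N z) :
    Cop B (Ideal.span {z}) := by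
  refine ⟨?_, fun v hv h => ?_⟩
  · intro h
    exact hz.1 (Ideal.span_singleton_eq_bot.1 h)
  · apply v.isPrime.ne_top
    rw [Ideal.eq_top_iff_one]
    have h1 : z ∈ v.asIdeal := h (Ideal.mem_span_singleton_self z)
    have h2 : z - 1 ∈ v.asIdeal := Ideal.pow_le_self hN.ne' (hz.2.2 v hv)
    have h3 := sub_mem h1 h2
    rwa [sub_sub_cancel] at h3

theorem gen_coe1 : ((1 : 𝓞 F) : F) = 1 := map_one (algebraMap (𝓞 F) F)

theorem gen_coeM (x z : 𝓞 F) : ((x * z : 𝓞 F) : F) = (x : F) * (z : F) :=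
  map_mul (algebraMap (𝓞 F) F) x z

theorem gen_ray1 (B : Finset (Pl F)) (N : ℕ) : Ray B N (1 : 𝓞 F) := by
  refine ⟨one_ne_zero, fun σ => ?_, fun v _ => ?_⟩
  · have h : σ ((1 : 𝓞 F) : F) = 1 := by
      rw [gen_coe1, map_one]
    rw [h]
    exact one_pos
  · rw [sub_self]
    exact zero_mem _

theorem gen_rayDiv {B : Finset (Pl F)} {N : ℕ} {x y z : 𝓞 F} (hx : Ray B N x) (hy : Ray B N y)
    (h : y = x * z) : Ray B N z := by
  refine ⟨?_, fun σ => ?_, fun v hv => ?_⟩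
  · rintro rfl
    exact hy.1 (by rw [h, mul_zero])
  · have h1 := hx.2.1 σ
    have h2 := hy.2.1 σ
    rw [h, gen_coeM, map_mul] at h2
    exact (mul_pos_iff_of_pos_left h1).1 h2
  · have h1 : z - 1 = (y - 1) - z * (x - 1) := by rw [h]; ring
    rw [h1]
    exact sub_mem (hy.2.2 v hv) (Ideal.mul_mem_left _ _ (hx.2.2 v hv))

theorem gen_rayMul {B : Finset (Pl F)} {N : ℕ} {x z : 𝓞 F} (hx : Ray B N x) (hz : Ray B N z) :
    Ray B N (x * z) := by
  refine ⟨mul_ne_zero hx.1 hz.1, fun σ => ?_, fun v hv => ?_⟩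
  · rw [gen_coeM, map_mul]
    exact mul_pos (hx.2.1 σ) (hz.2.1 σ)
  · have h1 : x * z - 1 = x * (z - 1) + (x - 1) := by ring
    rw [h1]
    exact add_mem (Ideal.mul_mem_left _ _ (hz.2.2 v hv)) (hx.2.2 v hv)

/-- the term of an element -/
noncomputable def gen_f (B : Finset (Pl F)) (N M : ℕ) (b : Ideal (𝓞 F)) (s : ℝ) (x : 𝓞 F) : ℝ :=
  if Ray B N x ∧ x ∈ b then wt M (mixedEmbedding F (x : F)) *
    mixedEmbedding.norm (mixedEmbedding F (x : F)) ^ (-s) else 0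

/-- the sum over a fibre -/
noncomputable def gen_F (B : Finset (Pl F)) (N g : ℕ) (b : Ideal (𝓞 F)) (s : ℝ)
    (J : Ideal (𝓞 F)) : ℝ :=
  if ∃ z : 𝓞 F, Ray B N z ∧ z ∈ b ∧ Ideal.span {z} = J then
    (g : ℝ) * (Ideal.absNorm J : ℝ) ^ (-s) else 0

theorem gen_val {B : Finset (Pl F)} {N M : ℕ} {b : Ideal (𝓞 F)} {s : ℝ} (hs : 1 < s) {x : 𝓞 F}
    (hxb : x ∈ b) (hx : ∀ v ∈ B, x - 1 ∈ v.asIdeal ^ N) :
    wt M (mixedEmbedding F (x : F)) * mixedEmbedding.norm (mixedEmbedding F (x : F)) ^ (-s) =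
      gen_f B N M b s x := by
  unfold gen_f
  by_cases h : Ray B N x ∧ x ∈ b
  · rw [if_pos h]
  · rw [if_neg h]
    by_cases h0 : x = 0
    · rw [gen_norm, h0, Ideal.span_singleton_eq_bot.2 rfl, Ideal.absNorm_bot, Nat.cast_zero,
        Real.zero_rpow (by linarith), mul_zero]
    · have h1 : ¬ TotPos (x : F) := fun h1 => h ⟨⟨h0, h1, hx⟩, hxb⟩
      rw [gen_tot] at h1
      unfold wt
      rw [if_neg h1, zero_mul]

theorem gen_fib (B : Finset (Pl F)) (N M g : ℕ)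
    (hg : ∀ x : F, x ≠ 0 → TotPos x →
      HasSum (fun u : {u : (𝓞 F)ˣ // TotPos ((u : 𝓞 F) : F) ∧
        ∀ v ∈ B, (u : 𝓞 F) - 1 ∈ v.asIdeal ^ N} =>
          wt M (mixedEmbedding F (((u : (𝓞 F)ˣ) : 𝓞 F) * x : F))) (g : ℝ))
    (b : Ideal (𝓞 F)) (s : ℝ) (J : Ideal (𝓞 F)) :
    HasSum (fun x : {x : 𝓞 F // Ideal.span {x} = J} => gen_f B N M b s x.1)
      (gen_F B N g b s J) := by
  unfold gen_F
  by_cases h : ∃ z : 𝓞 F, Ray B N z ∧ z ∈ b ∧ Ideal.span {z} = J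
  · rw [if_pos h]
    obtain ⟨z, hz, hzb, hzJ⟩ := h
    have hz0 : (z : F) ≠ 0 := RingOfIntegers.coe_ne_zero_iff.2 hz.1
    have h1 := (hg (z : F) hz0 hz.2.1).mul_right ((Ideal.absNorm J : ℝ) ^ (-s))
    obtain ⟨e, he⟩ : ∃ e : {u : (𝓞 F)ˣ // TotPos ((u : 𝓞 F) : F) ∧
        ∀ v ∈ B, (u : 𝓞 F) - 1 ∈ v.asIdeal ^ N} → {x : 𝓞 F // Ideal.span {x} = J},
        ∀ u, (e u).1 = ((u.1 : (𝓞 F)ˣ) : 𝓞 F) * z := by
      refine ⟨fun u => ⟨((u.1 : (𝓞 F)ˣ) : 𝓞 F) * z, ?_⟩, fun u => rfl⟩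
      rw [Ideal.span_singleton_mul_left_unit u.1.isUnit, hzJ]
    have hinj : Function.Injective e := by
      intro u u' h2
      have h3 : ((u.1 : (𝓞 F)ˣ) : 𝓞 F) * z = ((u'.1 : (𝓞 F)ˣ) : 𝓞 F) * z := by
        rw [← he, ← he, h2]
      exact Subtype.ext (Units.ext (mul_right_cancel₀ hz.1 h3))
    refine (hinj.hasSum_iff ?_).1 ?_
    · intro x hx
      unfold gen_f
      rw [if_neg]
      rintro ⟨hx1, hx2⟩
      have h2 : Ideal.span {z} = Ideal.span {x.1} := by rw [hzJ, x.2]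
      obtain ⟨u, hu⟩ := Ideal.span_singleton_eq_span_singleton.1 h2
      have h3 : Ray B N ((u : (𝓞 F)ˣ) : 𝓞 F) := gen_rayDiv hz hx1 hu.symm
      apply hx
      refine ⟨⟨u, h3.2⟩, Subtype.ext ?_⟩
      rw [he, ← hu]
      ring
    · refine h1.congr_fun fun u => ?_
      show gen_f B N M b s (e u).1 = _
      have h3 : Ray B N ((u.1 : (𝓞 F)ˣ) : 𝓞 F) := ⟨u.1.ne_zero, u.2⟩
      unfold gen_f
      rw [if_pos, gen_norm, (e u).2, he, gen_coeM]
      rw [he]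
      exact ⟨gen_rayMul h3 hz, Ideal.mul_mem_left _ _ hzb⟩
  · rw [if_neg h]
    have h1 : (fun x : {x : 𝓞 F // Ideal.span {x} = J} => gen_f B N M b s x.1) = fun _ => 0 := by
      funext x
      unfold gen_f
      rw [if_neg]
      rintro ⟨hx1, hx2⟩
      exact h ⟨x.1, hx1, hx2, x.2⟩
    rw [h1]
    exact hasSum_zero

theorem gen_iff {B : Finset (Pl F)} {N : ℕ} (hN : 0 < N) {G : Type} [CommGroup G]
    {cl : Ideal (𝓞 F) → G} (hcl : IsRCG B N G cl) {c : G} {b : Ideal (𝓞 F)} (hb : Cop B b)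
    (hbc : cl b = c⁻¹) (I : Ideal (𝓞 F)) :
    (∃ z : 𝓞 F, Ray B N z ∧ z ∈ b ∧ Ideal.span {z} = I * b) ↔ (Cop B I ∧ cl I = c) := by
  constructor
  · rintro ⟨z, hz, _, hzI⟩
    have h1 := gen_rayCop hN hz
    rw [hzI, eul_cop] at h1
    refine ⟨h1.1, ?_⟩
    have h2 := hcl.mul I b h1.1 hb
    rw [← hzI, hcl.ray z hz, hbc] at h2
    exact (mul_inv_eq_one.1 h2.symm)
  · rintro ⟨hI1, hI2⟩
    have h1 : cl (I * b) = cl (Ideal.span {(1 : 𝓞 F)}) := by
      rw [hcl.mul I b hI1 hb, hI2, hbc, mul_inv_cancel, hcl.ray 1 (gen_ray1 B N)]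
    obtain ⟨x, y, hx, hy, hxy⟩ := hcl.rel (I * b) (Ideal.span {(1 : 𝓞 F)})
      ((eul_cop B I b).2 ⟨hI1, hb⟩) (gen_rayCop hN (gen_ray1 B N)) h1
    rw [Ideal.span_singleton_one, ← Ideal.one_eq_top, mul_one] at hxy
    have h2 : y ∈ Ideal.span {x} := by
      have h3 : Ideal.span {y} ≤ (Ideal.span {x} : Ideal (𝓞 F)) := by
        rw [← hxy]
        exact Ideal.mul_le_left
      exact h3 (Ideal.mem_span_singleton_self y)
    obtain ⟨z, hz⟩ := Ideal.mem_span_singleton'.1 h2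
    have hz' : y = x * z := by rw [← hz]; ring
    have h4 : Ideal.span {z} = I * b := by
      rw [hz', ← Ideal.span_singleton_mul_span_singleton] at hxy
      have h5 : Ideal.span {x} ≠ (0 : Ideal (𝓞 F)) := fun h => hx.1
        (Ideal.span_singleton_eq_bot.1 h)
      exact (mul_left_cancel₀ h5 hxy).symm
    refine ⟨z, gen_rayDiv hx hy hz', ?_, h4⟩
    have h5 : z ∈ I * b := by
      rw [← h4]
      exact Ideal.mem_span_singleton_self z
    have h6 : I * b ≤ b := Ideal.mul_le_right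
    exact h6 h5

end

theorem st_GEN (hP : ST_PUN) : ST_GEN := by
  intro F _ _ B N hN G _ _ cl hcl
  obtain ⟨M, g, hM, hg0, hg⟩ := hP F B N
  refine ⟨M, g, hM, hg0, fun c => ?_⟩
  obtain ⟨b, hb, hbc⟩ := hcl.sur c⁻¹
  have hcop : IsCoprime b (∏ v ∈ B, v.asIdeal ^ N) := gen_cop hb N
  obtain ⟨α, hαb, m, hm, hαm⟩ : ∃ α ∈ b, ∃ m ∈ ∏ v ∈ B, v.asIdeal ^ N, α + m = 1 := by
    have h1 : (1 : 𝓞 F) ∈ b ⊔ ∏ v ∈ B, v.asIdeal ^ N := by
      rw [Ideal.isCoprime_iff_sup_eq.1 hcop]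
      trivial
    exact Submodule.mem_sup.1 h1
  have hα1 : α - 1 ∈ ∏ v ∈ B, v.asIdeal ^ N := by
    have h1 : α - 1 = -m := by rw [← hαm]; ring
    rw [h1]
    exact neg_mem hm
  have hinf : b * ∏ v ∈ B, v.asIdeal ^ N = b ⊓ ∏ v ∈ B, v.asIdeal ^ N :=
    Ideal.mul_eq_inf_of_coprime (Ideal.isCoprime_iff_sup_eq.1 hcop)
  refine ⟨b, α, hb, fun s hs hsum => ?_⟩
  obtain ⟨e, he⟩ : ∃ e : (b * ∏ v ∈ B, v.asIdeal ^ N : Ideal (𝓞 F)) → 𝓞 F,
      ∀ β, e β = α + β := ⟨fun β => α + β, fun β => rfl⟩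
  have hval : ∀ β : (b * ∏ v ∈ B, v.asIdeal ^ N : Ideal (𝓞 F)),
      wt M (mixedEmbedding F ((α + β : 𝓞 F) : F)) *
        mixedEmbedding.norm (mixedEmbedding F ((α + β : 𝓞 F) : F)) ^ (-s) =
      gen_f B N M b s (e β) := by
    intro β
    have hβ : (β : 𝓞 F) ∈ b ⊓ ∏ v ∈ B, v.asIdeal ^ N := by
      rw [← hinf]
      exact β.2
    rw [he]
    apply gen_val hs
    · exact add_mem hαb hβ.1
    · rw [← gen_mem]
      have h1 : α + (β : 𝓞 F) - 1 = (α - 1) + β := by ring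
      rw [h1]
      exact add_mem hα1 hβ.2
  have hinj : Function.Injective e := by
    intro β β' h
    rw [he, he] at h
    exact Subtype.ext (add_left_cancel h)
  have hsupp : ∀ x ∉ Set.range e, gen_f B N M b s x = 0 := by
    intro x hx
    unfold gen_f
    rw [if_neg]
    rintro ⟨hx1, hx2⟩
    have h1 : x - α ∈ b * ∏ v ∈ B, v.asIdeal ^ N := by
      rw [hinf]
      refine ⟨sub_mem hx2 hαb, ?_⟩
      have h2 : x - α = (x - 1) - (α - 1) := by ring
      rw [h2]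
      exact sub_mem ((gen_mem B N _).2 hx1.2.2) hα1
    apply hx
    refine ⟨⟨x - α, h1⟩, ?_⟩
    rw [he]
    show α + (x - α) = x
    ring
  have hsum' : Summable (fun β => gen_f B N M b s (e β)) := hsum.congr fun β => hval β
  have hf : HasSum (gen_f B N M b s) (∑' β, gen_f B N M b s (e β)) :=
    (hinj.hasSum_iff hsupp).1 hsum'.hasSum
  have hF : HasSum (gen_F B N g b s) (∑' β, gen_f B N M b s (e β)) := by
    have h1 := (Equiv.hasSum_iff (Equiv.sigmaFiberEquiv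
      (fun x : 𝓞 F => (Ideal.span {x} : Ideal (𝓞 F))))).2 hf
    exact h1.sigma fun J => gen_fib B N M g hg b s J
  have hbn : (0 : ℝ) < (Ideal.absNorm b : ℝ) := by
    have h1 : Ideal.absNorm b ≠ 0 := fun h => hb.1 (Ideal.absNorm_eq_zero_iff.1 h)
    exact_mod_cast Nat.pos_of_ne_zero h1
  have hI : HasSum (fun I : Ideal (𝓞 F) =>
      ((g : ℝ) * (Ideal.absNorm b : ℝ) ^ (-s)) * zc B cl c s I)
      (∑' β, gen_f B N M b s (e β)) := by
    have hinj' : Function.Injective (fun I : Ideal (𝓞 F) => I * b) := by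
      intro I I' h
      exact mul_right_cancel₀ (show b ≠ 0 from hb.1) h
    refine ((hinj'.hasSum_iff ?_).2 hF).congr_fun fun I => ?_
    · intro J hJ
      unfold gen_F
      rw [if_neg]
      rintro ⟨z, _, hzb, hzJ⟩
      have h1 : b ∣ J := by
        rw [← hzJ, Ideal.dvd_span_singleton]
        exact hzb
      obtain ⟨I, hI⟩ := h1
      exact hJ ⟨I, by rw [hI]; exact mul_comm I b⟩
    · show _ = gen_F B N g b s (I * b)
      unfold gen_F zc
      have hiff := gen_iff hN hcl hb hbc I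
      by_cases h : Cop B I ∧ cl I = c
      · rw [if_pos h, if_pos (hiff.2 h), map_mul, Nat.cast_mul,
          Real.mul_rpow (Nat.cast_nonneg _) (Nat.cast_nonneg _)]
        ring
      · rw [if_neg h, if_neg (fun h' => h (hiff.1 h')), mul_zero]
  have hκ : (g : ℝ) * (Ideal.absNorm b : ℝ) ^ (-s) ≠ 0 := by
    have h1 : (0 : ℝ) < g := by exact_mod_cast hg0
    positivity
  have hzs : Summable (zc B cl c s) := (summable_mul_left_iff hκ).1 hI.summable
  refine ⟨hzs, ?_⟩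
  rw [tsum_congr hval, ← hI.tsum_eq, tsum_mul_left, ← mul_assoc, ← mul_assoc]
  congr 1
  rw [mul_comm ((Ideal.absNorm b : ℝ) ^ s) (g : ℝ), mul_assoc, ← Real.rpow_add hbn,
    add_neg_cancel, Real.rpow_zero, mul_one]

end REC
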