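import Pool.Agent.Helper85.REC.Stmts9

/-!
# REC.ST_IR3: irreducible motives of rank three   [helper34]
-/

set_option autoImplicit false

open scoped Classical
open NumberField

namespace Pool.Agent.Helper34.REC

open _root_.REC MU

theorem st_IR3 : ST_DAT → ST_NFD → ST_NED → ST_IR3 := by
  intro hD hF hE F _ _ S hS w h M hh hw hFL hirr
  refine ⟨hirr, ?_⟩
  obtain ⟨c, hc⟩ := hD F S hS w h M hh hw hFL hirr
  obtain ⟨c1, hc1⟩ := hF F S hS w h M hh hirr
  obtain ⟨c2, hc2⟩ := hE F S hS w h M hirr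
  refine ⟨max c (max c1 c2), fun l _ hl => ?_⟩
  by_contra hn
  have h0 : c < l := lt_of_le_of_lt (le_max_left _ _) hl
  have h1 : c1 < l := lt_of_le_of_lt ((le_max_left _ _).trans (le_max_right _ _)) hl
  have h2 : c2 < l := lt_of_le_of_lt ((le_max_right _ _).trans (le_max_right _ _)) hl
  rcases hc l h0 hn with h3 | h3
  · exact hc1 l h1 h3
  · exact hc2 l h2 h3

end Pool.Agent.Helper34.REC
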