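import Pool.Agent.Helper85.REC.Stmts10
import Pool.Agent.Helper34.REC.EXT

/-!
# REC.ST_JZD: lattices in a division algebra   [helper34]
-/

set_option autoImplicit false
set_option maxHeartbeats 800000

open scoped Classical

namespace Pool.Agent.Helper34.REC

open _root_.REC

section

variable {D : Type} [DivisionRing D] [Algebra ℚ D] [FiniteDimensional ℚ D]

omit [FiniteDimensional ℚ D] in
/-- a basis of a lattice -/
theorem exists_lat_basis (G : Submodule ℤ D) (hG : G.FG)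
    (hs : Submodule.span ℚ (G : Set D) = ⊤) :
    ∃ (ι : Type) (_ : Fintype ι) (b : Module.Basis ι ℚ D),
      ∀ y, y ∈ G ↔ ∀ i, ∃ z : ℤ, b.repr y i = z := by
  have htf : Module.IsTorsionFree ℤ D := .trans_faithfulSMul ℤ ℚ D
  have hfin : Module.Finite ℤ G := Module.Finite.iff_fg.2 hG
  let b := Module.Free.chooseBasis ℤ G
  have hbs : Submodule.span ℤ (Set.range fun i => (b i : D)) = G := by
    have h3 := congrArg (Submodule.map G.subtype) b.span_eq
    rw [Submodule.map_span, Submodule.map_top, Submodule.range_subtype, ← Set.range_comp] at h3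
    exact h3
  have hli : LinearIndependent ℚ (fun i => (b i : D)) := by
    rw [← LinearIndependent.iff_fractionRing ℤ ℚ]
    exact b.linearIndependent.map' G.subtype (Submodule.ker_subtype _)
  have hsp : ⊤ ≤ Submodule.span ℚ (Set.range fun i => (b i : D)) := by
    rw [← hs, Submodule.span_le]
    intro x hx
    rw [SetLike.mem_coe, ← hbs] at hx
    exact Submodule.span_le_restrictScalars ℤ ℚ _ hx
  refine ⟨_, inferInstance, Module.Basis.mk hli hsp, ?_⟩
  intro y
  have h1 : Set.range (Module.Basis.mk hli hsp) = Set.range (fun i => (b i : D)) := by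
    rw [Module.Basis.coe_mk]
  have h2 := Module.Basis.mem_span_iff_repr_mem ℤ (Module.Basis.mk hli hsp) y
  rw [h1, hbs] at h2
  rw [h2]
  constructor
  · intro h i
    obtain ⟨z, hz⟩ := h i
    exact ⟨z, hz.symm⟩
  · intro h i
    obtain ⟨z, hz⟩ := h i
    exact ⟨z, hz.symm⟩

omit [FiniteDimensional ℚ D] in
/-- the norm is bounded by the coordinates -/
theorem norm_bound {ι : Type} [Fintype ι] (b : Module.Basis ι ℚ D) :
    ∃ C : ℚ, 0 ≤ C ∧ ∀ (y : D) (δ : ℚ), (∀ i, |b.repr y i| ≤ δ) →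
      |Algebra.norm ℚ y| ≤ C * δ ^ Fintype.card ι := by
  set x : ℚ := ∑ k, ∑ i, ∑ j, |Algebra.leftMulMatrix b (b k) i j| with hx
  have hx0 : 0 ≤ x := Finset.sum_nonneg fun _ _ => Finset.sum_nonneg fun _ _ =>
    Finset.sum_nonneg fun _ _ => abs_nonneg _
  refine ⟨(Fintype.card ι).factorial * ((Fintype.card ι : ℚ) * x) ^ Fintype.card ι, by positivity,
    ?_⟩
  intro y δ hy
  have h1 : Algebra.leftMulMatrix b y = ∑ k, b.repr y k • Algebra.leftMulMatrix b (b k) := by
    conv_lhs => rw [← b.sum_repr y]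
    rw [map_sum]
    exact Finset.sum_congr rfl fun k _ => map_smul _ _ _
  rw [Algebra.norm_eq_matrix_det b y, h1]
  have h2 := Matrix.det_sum_smul_le (Finset.univ : Finset ι) (c := fun k => b.repr y k)
    (A := fun k => Algebra.leftMulMatrix b (b k)) (abv := AbsoluteValue.abs) (x := x) (by
      intro k i j
      rw [AbsoluteValue.abs_apply, hx]
      refine le_trans ?_ (Finset.single_le_sum (f := fun k => ∑ i, ∑ j,
        |Algebra.leftMulMatrix b (b k) i j|) (fun _ _ => Finset.sum_nonneg fun _ _ =>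
        Finset.sum_nonneg fun _ _ => abs_nonneg _) (Finset.mem_univ k))
      refine le_trans ?_ (Finset.single_le_sum (f := fun i => ∑ j,
        |Algebra.leftMulMatrix b (b k) i j|) (fun _ _ =>
        Finset.sum_nonneg fun _ _ => abs_nonneg _) (Finset.mem_univ i))
      exact Finset.single_le_sum (f := fun j =>
        |Algebra.leftMulMatrix b (b k) i j|) (fun _ _ => abs_nonneg _) (Finset.mem_univ j))
    (y := δ) (by
      intro k
      rw [AbsoluteValue.abs_apply]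
      exact hy k)
  rw [AbsoluteValue.abs_apply, Finset.card_univ, nsmul_eq_mul, nsmul_eq_mul] at h2
  refine h2.trans (le_of_eq ?_)
  have h3 : (Fintype.card ι : ℚ) * δ * x = (Fintype.card ι : ℚ) * x * δ := by ring
  rw [h3, mul_pow _ δ, mul_assoc]

omit [FiniteDimensional ℚ D] in
/-- Hurwitz's lemma -/
theorem hurwitz {ι : Type} [Fintype ι] (b : Module.Basis ι ℚ D) :
    ∃ M : ℕ, ∀ y : D, ∃ (t : ℤ) (ω : D), t ≠ 0 ∧ t.natAbs ≤ M ∧ (∀ i, ∃ z : ℤ, b.repr ω i = z) ∧
      |Algebra.norm ℚ ((t : ℚ) • y - ω)| < 1 := by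
  obtain ⟨C, hC0, hC⟩ := norm_bound b
  have hn : 0 < Fintype.card ι := by
    rw [Fintype.card_pos_iff]
    exact b.index_nonempty
  obtain ⟨k, hk⟩ := exists_nat_gt C
  have hk0 : (0 : ℚ) < k := lt_of_le_of_lt hC0 hk
  have hk1 : 0 < k := by exact_mod_cast hk0
  refine ⟨k ^ Fintype.card ι, ?_⟩
  intro y
  let a : ι → ℚ := fun i => b.repr y i
  have hflt : ∀ (t : ℕ) (i : ι), ⌊(k : ℚ) * Int.fract ((t : ℚ) * a i)⌋.toNat < k := by
    intro t i
    have h1 : ⌊(k : ℚ) * Int.fract ((t : ℚ) * a i)⌋ < k := by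
      rw [Int.floor_lt]
      have h2 := Int.fract_lt_one ((t : ℚ) * a i)
      calc (k : ℚ) * Int.fract ((t : ℚ) * a i) < k * 1 := mul_lt_mul_of_pos_left h2 hk0
        _ = ((k : ℤ) : ℚ) := by rw [mul_one, Int.cast_natCast]
    have h3 : 0 ≤ ⌊(k : ℚ) * Int.fract ((t : ℚ) * a i)⌋ := by
      apply Int.floor_nonneg.2
      exact mul_nonneg hk0.le (Int.fract_nonneg _)
    omega
  obtain ⟨t₁, t₂, hne, heq⟩ := Fintype.exists_ne_map_eq_of_card_lt
    (fun (t : Fin (k ^ Fintype.card ι + 1)) (i : ι) =>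
      (⟨⌊(k : ℚ) * Int.fract ((t.1 : ℚ) * a i)⌋.toNat, hflt t.1 i⟩ : Fin k)) (by
      rw [Fintype.card_fun, Fintype.card_fin, Fintype.card_fin]
      omega)
  have hfr : ∀ i, |Int.fract ((t₁.1 : ℚ) * a i) - Int.fract ((t₂.1 : ℚ) * a i)| ≤ 1 / k := by
    intro i
    have h1 := congrArg Fin.val (congrFun heq i)
    change ⌊(k : ℚ) * Int.fract ((t₁.1 : ℚ) * a i)⌋.toNat =
      ⌊(k : ℚ) * Int.fract ((t₂.1 : ℚ) * a i)⌋.toNat at h1
    have h3 : ∀ t : ℕ, 0 ≤ ⌊(k : ℚ) * Int.fract ((t : ℚ) * a i)⌋ := by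
      intro t
      apply Int.floor_nonneg.2
      exact mul_nonneg hk0.le (Int.fract_nonneg _)
    have h4 : ⌊(k : ℚ) * Int.fract ((t₁.1 : ℚ) * a i)⌋ =
        ⌊(k : ℚ) * Int.fract ((t₂.1 : ℚ) * a i)⌋ := by
      have h5 := h3 t₁.1
      have h6 := h3 t₂.1
      omega
    have h5 := Int.abs_sub_lt_one_of_floor_eq_floor h4
    rw [← mul_sub, abs_mul, abs_of_pos hk0] at h5
    rw [le_div_iff₀ hk0, mul_comm]
    exact h5.le
  let t : ℤ := (t₁.1 : ℤ) - (t₂.1 : ℤ)
  let c : ι → ℤ := fun i => ⌊(t₁.1 : ℚ) * a i⌋ - ⌊(t₂.1 : ℚ) * a i⌋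
  refine ⟨t, b.equivFun.symm (fun i => (c i : ℚ)), ?_, ?_, ?_, ?_⟩
  · intro h1
    apply hne
    apply Fin.ext
    change (t₁.1 : ℤ) - (t₂.1 : ℤ) = 0 at h1
    omega
  · have h1 := t₁.2
    have h2 := t₂.2
    change ((t₁.1 : ℤ) - (t₂.1 : ℤ)).natAbs ≤ _
    omega
  · intro i
    refine ⟨c i, ?_⟩
    rw [← Module.Basis.equivFun_apply, LinearEquiv.apply_symm_apply]
  · have h1 : ∀ i, |b.repr ((t : ℚ) • y - b.equivFun.symm (fun i => (c i : ℚ))) i| ≤ 1 / k := by
      intro i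
      rw [← Module.Basis.equivFun_apply, map_sub, LinearEquiv.apply_symm_apply, map_smul]
      have h2 : ((t : ℚ) • b.equivFun y - fun i => (c i : ℚ)) i =
          Int.fract ((t₁.1 : ℚ) * a i) - Int.fract ((t₂.1 : ℚ) * a i) := by
        rw [Pi.sub_apply, Pi.smul_apply, Module.Basis.equivFun_apply, smul_eq_mul]
        change (((t₁.1 : ℤ) - (t₂.1 : ℤ) : ℤ) : ℚ) * a i -
          ((⌊(t₁.1 : ℚ) * a i⌋ - ⌊(t₂.1 : ℚ) * a i⌋ : ℤ) : ℚ) = _
        rw [Int.fract, Int.fract]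
        push_cast
        ring
      rw [h2]
      exact hfr i
    have h2 := hC _ _ h1
    refine h2.trans_lt ?_
    have h3 : (1 / (k : ℚ)) ^ Fintype.card ι ≤ 1 / k := by
      have h4 : (1 / (k : ℚ)) ≤ 1 := by
        rw [div_le_one hk0]
        exact_mod_cast hk1
      calc (1 / (k : ℚ)) ^ Fintype.card ι ≤ (1 / (k : ℚ)) ^ 1 :=
            pow_le_pow_of_le_one (by positivity) h4 hn
        _ = 1 / k := pow_one _
    calc C * (1 / (k : ℚ)) ^ Fintype.card ι ≤ C * (1 / k) := mul_le_mul_of_nonneg_left h3 hC0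
      _ = C / k := by ring
      _ < 1 := (div_lt_one hk0).2 hk

omit [FiniteDimensional ℚ D] in
/-- integral elements have integral norms -/
theorem int_norm {ι : Type} [Fintype ι] (b : Module.Basis ι ℚ D) (y : D)
    (hy : ∀ i j, ∃ z : ℤ, b.repr (y * b j) i = z) : ∃ z : ℤ, Algebra.norm ℚ y = z := by
  choose z hz using hy
  refine ⟨(Matrix.of z).det, ?_⟩
  have h1 : Algebra.leftMulMatrix b y = (Int.castRingHom ℚ).mapMatrix (Matrix.of z) := by
    ext i j
    rw [Algebra.leftMulMatrix_eq_repr_mul, hz]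
    rfl
  rw [Algebra.norm_eq_matrix_det b y, h1, ← RingHom.map_det]
  rfl

omit [FiniteDimensional ℚ D] in
/-- finitely many lattices between `G` and `(1/N) G` -/
theorem finite_between (G : Submodule ℤ D) (hG : G.FG) (N : ℤ) (hN : N ≠ 0) :
    {J : Submodule ℤ D | G ≤ J ∧ ∀ y ∈ J, N • y ∈ G}.Finite := by
  have htf : Module.IsTorsionFree ℤ D := .trans_faithfulSMul ℤ ℚ D
  let H : Submodule ℤ D := G.comap (LinearMap.lsmul ℤ D N)
  have hH : ∀ y, y ∈ H ↔ N • y ∈ G := fun y => Iff.rfl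
  have hNG : IsNoetherian ℤ G := isNoetherian_of_fg_of_noetherian G hG
  let j : H →ₗ[ℤ] G := (LinearMap.lsmul ℤ D N ∘ₗ H.subtype).codRestrict G fun x => x.2
  have hj : Function.Injective j := by
    intro x y hxy
    apply Subtype.ext
    have h1 : N • (x : D) = N • (y : D) := congrArg Subtype.val hxy
    exact smul_right_injective D hN h1
  have hNH : IsNoetherian ℤ H := isNoetherian_of_injective j hj
  let π : H →ₗ[ℤ] D ⧸ G := G.mkQ ∘ₗ H.subtype
  have hfin : Finite (LinearMap.range π) := by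
    apply finite_of_torsion (O := ℤ)
    · intro a ha
      have h1 : NeZero a.natAbs := ⟨Int.natAbs_ne_zero.2 ha⟩
      exact Finite.of_equiv _ (Int.quotientSpanEquivZMod a).symm.toEquiv
    · rintro ⟨_, z, rfl⟩
      refine ⟨N, hN, ?_⟩
      apply Subtype.ext
      change N • G.mkQ z.1 = 0
      rw [← map_smul, Submodule.mkQ_apply, Submodule.Quotient.mk_eq_zero]
      exact z.2
  have hfs : (LinearMap.range π : Set (D ⧸ G)).Finite := Set.toFinite _
  refine Set.Finite.of_finite_image (f := fun J : Submodule ℤ D => G.mkQ '' (J : Set D))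
    (hfs.finite_subsets.subset ?_) ?_
  · rintro _ ⟨J, hJ, rfl⟩ _ ⟨y, hy, rfl⟩
    exact ⟨⟨y, hJ.2 y hy⟩, rfl⟩
  · have key : ∀ J J' : Submodule ℤ D, G ≤ J' →
        G.mkQ '' (J : Set D) = G.mkQ '' (J' : Set D) → J ≤ J' := by
      intro J J' hJ' h y hy
      have h1 : G.mkQ y ∈ G.mkQ '' (J' : Set D) := by
        rw [← h]
        exact ⟨y, hy, rfl⟩
      obtain ⟨z, hz, hzy⟩ := h1
      rw [Submodule.mkQ_apply, Submodule.mkQ_apply, Submodule.Quotient.eq] at hzy
      have h2 : y = z - (z - y) := (sub_sub_cancel z y).symm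
      rw [h2]
      exact J'.sub_mem hz (hJ' hzy)
    intro J hJ J' hJ' h
    exact le_antisymm (key J J' hJ'.1 h) (key J' J hJ.1 h.symm)

end

theorem st_JZD : ST_JZD := by
  intro D _ _ _ Γ hΓf hΓs
  set G : Submodule ℤ D := AddSubgroup.toIntSubmodule Γ.toAddSubgroup with hGd
  have hGm : ∀ y, y ∈ G ↔ y ∈ Γ := fun y => Iff.rfl
  have hGs : Submodule.span ℚ (G : Set D) = ⊤ := hΓs
  obtain ⟨ι, _, b, hb⟩ := exists_lat_basis G hΓf hGs
  obtain ⟨M, hM⟩ := hurwitz b
  refine ⟨{J : Submodule ℤ D | G ≤ J ∧ ∀ y ∈ J, (M.factorial : ℤ) • y ∈ G},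
    finite_between G hΓf _ (by exact_mod_cast M.factorial_ne_zero), ?_⟩
  intro J hJf hJs hJst
  have hint : ∀ y ∈ G, ∃ z : ℤ, Algebra.norm ℚ y = z := by
    intro y hy
    apply int_norm b y
    intro i j
    refine (hb _).1 ?_ i
    have h1 : b j ∈ G := by
      rw [hb]
      intro i
      rw [Module.Basis.repr_self, Finsupp.single_apply]
      by_cases hji : j = i
      · exact ⟨1, by rw [if_pos hji, Int.cast_one]⟩
      · exact ⟨0, by rw [if_neg hji, Int.cast_zero]⟩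
    exact Γ.mul_mem hy h1
  have hnorm0 : ∀ y : D, y ≠ 0 → Algebra.norm ℚ y ≠ 0 := by
    intro y hy h1
    have h2 : Algebra.norm ℚ (y * y⁻¹) = 0 := by rw [map_mul, h1, zero_mul]
    rw [mul_inv_cancel₀ hy, map_one] at h2
    exact one_ne_zero h2
  -- a multiple of J is in Γ
  obtain ⟨m, hm0, hm⟩ : ∃ m : ℤ, m ≠ 0 ∧ ∀ x ∈ J, (m : D) * x ∈ G := by
    obtain ⟨k, s, hs⟩ := Submodule.fg_iff_exists_fin_generating_family.1 hJf
    choose a ha ham using fun i : Fin k => exists_smul_mem (K := ℚ) G hGs (s i)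
    refine ⟨∏ i, a i, Finset.prod_ne_zero_iff.2 fun i _ => ha i, ?_⟩
    intro x hx
    rw [← hs] at hx
    rw [← zsmul_eq_mul]
    induction hx using Submodule.span_induction with
    | mem x hx =>
      obtain ⟨i, rfl⟩ := hx
      obtain ⟨c, hc⟩ := Finset.dvd_prod_of_mem a (Finset.mem_univ i)
      rw [hc, mul_comm, mul_smul]
      exact G.smul_mem c (ham i)
    | zero =>
      rw [smul_zero]
      exact G.zero_mem
    | add x y _ _ hx hy =>
      rw [smul_add]
      exact G.add_mem hx hy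
    | smul c x _ hx =>
      rw [smul_comm]
      exact G.smul_mem c hx
  have hmD : (m : D) ≠ 0 := by
    have : CharZero D := algebraRat.charZero D
    exact_mod_cast hm0
  -- an element of minimal norm
  have hex : ∃ z : ℕ, ∃ x ∈ J, x ≠ 0 ∧ |Algebra.norm ℚ ((m : D) * x)| = z := by
    have h1 : ∃ x ∈ J, x ≠ 0 := by
      by_contra h2
      push Not at h2
      have h3 : Submodule.span ℚ (J : Set D) ≤ ⊥ := by
        rw [Submodule.span_le]
        intro x hx
        exact h2 x hx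
      rw [hJs] at h3
      have h4 : (1 : D) ∈ (⊥ : Submodule ℚ D) := h3 Submodule.mem_top
      exact one_ne_zero ((Submodule.mem_bot ℚ).1 h4)
    obtain ⟨x, hx, hx0⟩ := h1
    obtain ⟨z, hz⟩ := hint _ (hm x hx)
    refine ⟨z.natAbs, x, hx, hx0, ?_⟩
    rw [hz, Nat.cast_natAbs, Int.cast_abs]
  obtain ⟨x, hxJ, hx0, hxz⟩ := Nat.find_spec hex
  have hmin : ∀ y ∈ J, |Algebra.norm ℚ y| < |Algebra.norm ℚ x| → y = 0 := by
    intro y hy hlt
    by_contra hy0
    obtain ⟨z, hz⟩ := hint _ (hm y hy)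
    have h1 := Nat.find_min' hex ⟨y, hy, hy0, (by
      rw [hz, Nat.cast_natAbs, Int.cast_abs] : |Algebra.norm ℚ ((m : D) * y)| = (z.natAbs : ℕ))⟩
    have h2 : |Algebra.norm ℚ ((m : D) * x)| ≤ |Algebra.norm ℚ ((m : D) * y)| := by
      rw [hxz, hz, ← Int.cast_abs, ← Nat.cast_natAbs]
      exact_mod_cast h1
    rw [map_mul, map_mul, abs_mul, abs_mul] at h2
    have h3 : 0 < |Algebra.norm ℚ (m : D)| := abs_pos.2 (hnorm0 _ hmD)
    exact absurd (le_of_mul_le_mul_left h2 h3) (not_le.2 hlt)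
  refine ⟨x⁻¹, inv_ne_zero hx0, ?_, ?_⟩
  · intro γ hγ
    refine ⟨γ * x, hJst γ hγ x hxJ, ?_⟩
    rw [LinearMap.mulRight_apply, mul_assoc, mul_inv_cancel₀ hx0, mul_one]
  · rintro _ ⟨β, hβ, rfl⟩
    rw [LinearMap.mulRight_apply]
    obtain ⟨t, ω, ht0, htM, hω, hlt⟩ := hM (β * x⁻¹)
    have hωG : ω ∈ G := (hb ω).2 hω
    have h1 : ((t : ℚ) • (β * x⁻¹) - ω) * x = t • β - ω * x := by
      rw [sub_mul, smul_mul_assoc, mul_assoc, inv_mul_cancel₀ hx0, mul_one, Int.cast_smul_eq_zsmul]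
    have h2 : t • β - ω * x = 0 := by
      apply hmin
      · exact J.sub_mem (J.smul_mem t hβ) (hJst ω hωG x hxJ)
      · rw [← h1, map_mul, abs_mul]
        have h3 : 0 < |Algebra.norm ℚ x| := abs_pos.2 (hnorm0 _ hx0)
        calc |Algebra.norm ℚ ((t : ℚ) • (β * x⁻¹) - ω)| * |Algebra.norm ℚ x| <
              1 * |Algebra.norm ℚ x| := mul_lt_mul_of_pos_right hlt h3
          _ = |Algebra.norm ℚ x| := one_mul _
    have h3 : t • (β * x⁻¹) = ω := by
      have h4 : t • β = ω * x := sub_eq_zero.1 h2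
      rw [← smul_mul_assoc, h4, mul_assoc, mul_inv_cancel₀ hx0, mul_one]
    have h4 : t ∣ (M.factorial : ℤ) := by
      rw [← Int.natAbs_dvd_natAbs, Int.natAbs_natCast]
      exact Nat.dvd_factorial (Int.natAbs_pos.2 ht0) htM
    obtain ⟨c, hc⟩ := h4
    rw [hc, mul_comm, mul_smul, h3]
    exact G.smul_mem c hωG

end Pool.Agent.Helper34.REC
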