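import Pool.Agent.Helper85.REC.Stmts9
import Pool.Agent.Helper85.REC.IR2
import Pool.Agent.Helper34.REC.CL3

/-!
# REC.ST_NFD: the first case occurs for finitely many `l` only   [helper34]
-/

set_option autoImplicit false
set_option maxHeartbeats 800000

open scoped Classical
open NumberField Polynomial

namespace Pool.Agent.Helper34.REC

open Pool.Agent.Helper13.ZL (Pl q)
open _root_.REC MU

theorem charpoly_smul_one3 {K : Type} [Field K] (a : K) :
    (a • (1 : Matrix (Fin 3) (Fin 3) K)).charpoly = (Polynomial.X - C a) ^ 3 := by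
  have h1 : (a • (1 : Matrix (Fin 3) (Fin 3) K)).charmatrix =
      (Polynomial.X - C a) • (1 : Matrix (Fin 3) (Fin 3) K[X]) := by
    ext1 i j
    rw [Matrix.charmatrix_apply, Matrix.smul_apply, Matrix.smul_apply, Matrix.one_apply,
      Matrix.one_apply, Matrix.diagonal_apply]
    by_cases hij : i = j
    · rw [if_pos hij, if_pos hij, if_pos hij, smul_eq_mul, smul_eq_mul, mul_one, mul_one]
    · rw [if_neg hij, if_neg hij, if_neg hij, smul_eq_mul, smul_eq_mul, mul_zero, mul_zero, map_zero,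
        sub_zero]
  rw [Matrix.charpoly, h1, Matrix.det_smul, Matrix.det_one, mul_one, Fintype.card_fin]

theorem cube_identity {K : Type} [Field K] (a : K) :
    (27 : K[X]) * (Polynomial.X - C a) ^ 3 =
      (3 * Polynomial.X + C (((Polynomial.X - C a) ^ 3 : K[X]).coeff 2)) ^ 3 := by
  have h1 : ((Polynomial.X - C a) ^ 3 : K[X]) =
      Polynomial.X ^ 3 - C (3 * a) * Polynomial.X ^ 2 + C (3 * a ^ 2) * Polynomial.X - C (a ^ 3) := by
    have e3 : (C (3 : K) : K[X]) = 3 := by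
      exact map_ofNat C 3
    simp only [map_mul, map_pow, e3]
    ring
  have h2 : ((Polynomial.X - C a) ^ 3 : K[X]).coeff 2 = -(3 * a) := by
    rw [h1]
    simp only [coeff_sub, coeff_add, coeff_X_pow, coeff_C_mul, coeff_X, coeff_C]
    norm_num
  have e3 : (C (3 : K) : K[X]) = 3 := by
    exact map_ofNat C 3
  rw [h2, map_neg, map_mul, e3]
  ring

theorem st_NFD (hREL : ST_REL3) (hLIN : ST_LIN3) (hSYM : ST_SYM) (hCL : ST_CL3) (hPIN : ST_PIN)
    (hOVP : ST_OVP) : ST_NFD := by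
  intro F _ _ S hS w h M hh hirr
  by_contra hcon
  push Not at hcon
  obtain ⟨L, _, _, _, ⟨τ0⟩⟩ := ir_gal F
  have hne : Nonempty (F →+* L) := ⟨τ0⟩
  obtain ⟨e, he⟩ := hREL F L S hS 3 w h M (by
    intro c
    obtain ⟨l, hl, hcl, hF⟩ := hcon c
    exact ⟨l, hl, hcl, hF⟩)
  obtain ⟨l0, hl0, H, hH, B, A, hBA⟩ := hLIN F L S hS w h M e he hirr
  obtain ⟨hperm, S', hSS', hrel⟩ := he
  -- the normal core
  have hfin : Finite (Gal F ⧸ H) := Subgroup.quotient_finite_of_isOpen H hH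
  have hfi : H.FiniteIndex := Subgroup.finiteIndex_of_finite_quotient
  have hd0 : H.normalCore.index ≠ 0 := Subgroup.FiniteIndex.index_ne_zero
  set d : ℕ := H.normalCore.index with hd
  have hdpos : 0 < d := Nat.pos_of_ne_zero hd0
  obtain ⟨ψ, hψ⟩ := hSYM F S hS 3 w h M (by decide) l0 (hirr l0)
  have hν0 := form_ne_zero (by decide) hψ
  have hsq := hCL (Gal F) ℚ_[l0] (by norm_num) (rat (M.ρ l0)) ψ _ hψ (hirr l0) H.normalCore
    (Subgroup.normalCore_normal H) B (fun k => A ⟨k, H.normalCore_le k.2⟩)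
    ⟨hBA.1, fun k => hBA.2 ⟨k, H.normalCore_le k.2⟩⟩
  -- the exponents differ
  have hee : (fun τ => e 0 τ * (2 * d)) ≠ fun τ => e 1 τ * (2 * d) := by
    intro h1
    have h2 := congrFun h1 τ0
    have h3 : e 0 τ0 = e 1 τ0 := Nat.eq_of_mul_eq_mul_right (by omega) h2
    obtain ⟨s, hs⟩ := hperm τ0
    rw [hs, hs] at h3
    have h4 := s.injective (hh h3)
    exact absurd h4 (by decide)
  obtain ⟨m, hm, hgen⟩ := lin_gen F
  obtain ⟨p, v, hp, hcp, hpv, hprod⟩ := hPIN F L _ _ hee m (max l0 (S'.sup id)) hm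
  have hpl0 : l0 ≠ p := ((le_max_left _ _).trans_lt hcp).ne
  have hpS' : p ∉ S' := by
    intro h1
    have h2 : p ≤ S'.sup id := Finset.le_sup (f := id) h1
    have h3 := (le_max_right l0 (S'.sup id)).trans_lt hcp
    omega
  obtain ⟨x, hx1, hx2⟩ := hgen v
  obtain ⟨hO1, hO2, -, hO4, -, -, -⟩ := hOVP F
  obtain ⟨𝔓, h𝔓⟩ := hO1 v
  obtain ⟨σ₀, hσ₀⟩ := hO2 v 𝔓 h𝔓
  obtain ⟨p', f, hp', hf, hqv, hov', hp'v⟩ := hO4 v 𝔓 h𝔓
  have hpp' : p' = p := by
    by_contra hne'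
    have h1 : Nat.Coprime p' p := (Nat.coprime_primes hp' hp).2 hne'
    have h2 : IsCoprime (p' : 𝓞 F) (p : 𝓞 F) := by
      have h3 := (Nat.isCoprime_iff_coprime.mpr h1).map (Int.castRingHom (𝓞 F))
      simpa using h3
    obtain ⟨a, b, hab⟩ := h2
    apply v.isPrime.ne_top
    rw [Ideal.eq_top_iff_one, ← hab]
    exact Ideal.add_mem _ (Ideal.mul_mem_left _ _ hp'v) (Ideal.mul_mem_left _ _ hpv)
  rw [hpp'] at hqv hov'
  -- the Frobenius element
  set g : Gal F := σ₀ ^ (d * m) with hg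
  have hσ : CongPow 𝔓 (q v ^ (2 * d)) ((σ₀ ^ (2 * d) : Gal F)) := congPow_pow 𝔓 (q v) σ₀ hσ₀ (2 * d)
  have hσm : ((σ₀ ^ (2 * d)) ^ m : Gal F) = g * g := by
    rw [hg, ← pow_mul, ← pow_add]
    congr 1
    ring
  have hgH : g ∈ H.normalCore := by
    rw [hg, pow_mul]
    refine Subgroup.pow_mem _ ?_ m
    exact Subgroup.pow_index_mem H.normalCore σ₀
  obtain ⟨P, -, hP⟩ := M.pure p hp (fun h1 => hpS' (hSS' h1)) 𝔓 hov' (f * (2 * d) * m)
    ((σ₀ ^ (2 * d)) ^ m) (Nat.mul_pos (Nat.mul_pos hf (by omega)) hm) (by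
      have h1 := congPow_pow 𝔓 (q v ^ (2 * d)) (σ₀ ^ (2 * d)) hσ m
      rw [hqv, ← pow_mul, ← pow_mul, ← mul_assoc] at h1
      exact h1)
  have hPL := hrel v p 𝔓 (2 * d) m (σ₀ ^ (2 * d)) x P hp hpS' hpv h𝔓 (by omega) hm hσ hx1 hx2 (by
    intro l' _ hl'
    have h1 := hP l' hl'
    rwa [map_inv] at h1)
  -- over ℚ_l
  have hcp : P.map (Int.castRingHom ℚ_[l0]) =
      (Polynomial.X - C (((((cyc l0 F g)⁻¹ : ℤ_[l0]ˣ) : ℤ_[l0]) : ℚ_[l0]) ^ w)⁻¹) ^ 3 := by
    have h1 := hP l0 hpl0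
    have h2 : P.map (Int.castRingHom ℚ_[l0]) =
        (P.map (Int.castRingHom ℤ_[l0])).map (algebraMap ℤ_[l0] ℚ_[l0]) := by
      rw [Polynomial.map_map]
      congr 1
    rw [h2, ← h1, ← Matrix.charpoly_map]
    have h3 : ((M.ρ l0 ((σ₀ ^ (2 * d)) ^ m)⁻¹ : Matrix.GeneralLinearGroup (Fin 3) ℤ_[l0]) :
        Matrix (Fin 3) (Fin 3) ℤ_[l0]).map (algebraMap ℤ_[l0] ℚ_[l0]) =
        rat (M.ρ l0) ((σ₀ ^ (2 * d)) ^ m)⁻¹ := rfl
    rw [h3, ← charpoly_smul_one3]
    congr 1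
    have h4 := hsq g hgH
    rw [← map_mul, ← hσm] at h4
    have h5 : rat (M.ρ l0) ((σ₀ ^ (2 * d)) ^ m)⁻¹ * rat (M.ρ l0) ((σ₀ ^ (2 * d)) ^ m) = 1 := by
      rw [← map_mul, inv_mul_cancel, map_one]
    rw [h4, Matrix.mul_smul, Matrix.mul_one] at h5
    rw [← h5, smul_smul, inv_mul_cancel₀ (hν0 g), one_smul]
  have hZ : (27 : ℤ[X]) * P = (3 * Polynomial.X + C (P.coeff 2)) ^ 3 := by
    apply Polynomial.map_injective (Int.castRingHom ℚ_[l0]) Int.cast_injective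
    have h1 := cube_identity ((((((cyc l0 F g)⁻¹ : ℤ_[l0]ˣ) : ℤ_[l0]) : ℚ_[l0]) ^ w)⁻¹)
    rw [← hcp, Polynomial.coeff_map] at h1
    rw [Polynomial.map_mul, Polynomial.map_pow, Polynomial.map_add, Polynomial.map_mul,
      Polynomial.map_X, Polynomial.map_C, Polynomial.map_ofNat, Polynomial.map_ofNat]
    exact h1
  -- the eigenvalues are equal
  have hroot : ∀ i : Fin 3, (3 : 𝓞 L) * (∏ τ : F →+* L, RingOfIntegers.mapRingHom τ x ^
      (e i τ * (2 * d))) = -((P.coeff 2 : ℤ) : 𝓞 L) := by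
    intro i
    have h1 := congrArg (Polynomial.map (Int.castRingHom (𝓞 L))) hZ
    rw [Polynomial.map_mul, hPL, Polynomial.map_pow, Polynomial.map_add, Polynomial.map_mul,
      Polynomial.map_X, Polynomial.map_C, Polynomial.map_ofNat, Polynomial.map_ofNat] at h1
    have h2 := congrArg (Polynomial.eval (∏ τ : F →+* L, RingOfIntegers.mapRingHom τ x ^
      (e i τ * (2 * d)))) h1
    rw [Polynomial.eval_mul, Polynomial.eval_prod, Finset.prod_eq_zero (Finset.mem_univ i) (by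
      rw [Polynomial.eval_sub, Polynomial.eval_X, Polynomial.eval_C, sub_self]), mul_zero,
      Polynomial.eval_pow, Polynomial.eval_add, Polynomial.eval_mul, Polynomial.eval_X,
      Polynomial.eval_C, Polynomial.eval_ofNat] at h2
    have h3 := pow_eq_zero_iff (by decide : 3 ≠ 0) |>.mp h2.symm
    exact eq_neg_of_add_eq_zero_left h3
  apply hprod x hx2
  have h1 := (hroot 0).trans (hroot 1).symm
  exact mul_left_cancel₀ (by norm_num) h1

end Pool.Agent.Helper34.REC
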