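import Pool.Agent.Helper85.REC.Stmts9
import Pool.Agent.Helper60.REC.TRP

/-!
# REC.ST_TRM: polynomial identities modulo infinitely many `l`   [helper34]
-/

set_option autoImplicit false

open scoped Classical
open NumberField

namespace Pool.Agent.Helper34.REC

open _root_.REC MU
open Pool.Agent.Helper60.REC8

theorem st_TRM (hFRB : ST_FRB) : ST_TRM := by
  intro F _ _ S hS n w h M U hU Q hinf l _ σ₀ hσ₀
  by_contra hne
  set f : Gal F → ℤ_[l] := fun σ => MvPolynomial.aeval (fun i =>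
    ((M.ρ l σ : Matrix.GeneralLinearGroup (Fin n) ℤ_[l]) :
        Matrix (Fin n) (Fin n) ℤ_[l]).charpoly.coeff i) Q with hf
  have hcont : Continuous f := by
    refine continuous_aeval _ (fun i => ?_) Q
    refine continuous_coeff _ ?_ i
    exact Units.continuous_val.comp (M.continuous l)
  set V : Set (Gal F) := (fun σ => σ₀ * σ) ⁻¹' (U ∩ {σ | f σ ≠ 0}) with hV
  have hVo : IsOpen V := by
    refine IsOpen.preimage (continuous_const.mul continuous_id) ?_
    exact hU.inter (isOpen_ne_fun hcont continuous_const)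
  have hV1 : (1 : Gal F) ∈ V := by
    rw [hV, Set.mem_preimage, mul_one]
    exact ⟨hσ₀, hne⟩
  obtain ⟨Y, hYn, hYo, hYV⟩ := exists_openNormal F V hVo hV1
  obtain ⟨p, 𝔓, k, φ, hp, hpS, hover, hk, hcong, hφ⟩ := hFRB F Y hYn hYo (insert l S) σ₀⁻¹
  rw [inv_inv] at hφ
  simp only [Finset.mem_insert, not_or] at hpS
  have h1 : σ₀⁻¹ * φ⁻¹ ∈ Y := by
    have h2 : φ⁻¹ * σ₀⁻¹ ∈ Y := by
      have := Y.inv_mem hφ
      rwa [mul_inv_rev] at this
    exact (hYn.mem_comm_iff).mp h2
  have h2 := hYV h1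
  rw [hV, Set.mem_preimage] at h2
  have h3 : σ₀ * (σ₀⁻¹ * φ⁻¹) = φ⁻¹ := by group
  rw [h3] at h2
  obtain ⟨P, _, hP⟩ := M.pure p hp hpS.2 𝔓 hover k φ hk hcong
  have key : ∀ (R : Type) [CommRing R], MvPolynomial.aeval
      (fun i => (P.map (Int.castRingHom R)).coeff i) Q =
      ((MvPolynomial.eval (fun i => P.coeff i) Q : ℤ) : R) := by
    intro R _
    have h4 : (fun i => (P.map (Int.castRingHom R)).coeff i) =
        fun i => Int.castRingHom R (P.coeff i) := by
      funext i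
      rw [Polynomial.coeff_map]
    rw [h4, MvPolynomial.aeval_def, MvPolynomial.eval]
    rw [← MvPolynomial.coe_eval₂Hom]
    have h6 : (MvPolynomial.eval₂Hom (algebraMap ℤ R) fun i =>
        Int.castRingHom R (P.coeff i)) = (Int.castRingHom R).comp
        (MvPolynomial.eval₂Hom (RingHom.id ℤ) fun i => P.coeff i) := by
      apply MvPolynomial.ringHom_ext
      · intro r
        simp
      · intro i
        simp
    rw [h6]
    rfl
  set z : ℤ := MvPolynomial.eval (fun i => P.coeff i) Q with hz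
  have hz0 : z ≠ 0 := by
    intro h0
    apply h2.2
    simp only [hf]
    rw [hP l (Ne.symm hpS.1), key, h0, Int.cast_zero]
  obtain ⟨l', hl', hlt, h5⟩ := hinf (max p z.natAbs)
  have hl'p : l' ≠ p := ((le_max_left _ _).trans_lt hlt).ne'
  have h6 := h5 φ⁻¹ h2.1
  have h7 : (res (M.ρ l') φ⁻¹).charpoly = P.map (Int.castRingHom (ZMod l')) := by
    have h8 : res (M.ρ l') φ⁻¹ = (((M.ρ l' φ⁻¹ : Matrix.GeneralLinearGroup (Fin n) ℤ_[l']) :
        Matrix (Fin n) (Fin n) ℤ_[l']).map (PadicInt.toZMod (p := l'))) := rfl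
    rw [h8, Matrix.charpoly_map, hP l' hl'p, Polynomial.map_map]
    congr 1
    exact RingHom.ext_int _ _
  rw [h7, key] at h6
  have h9 : (l' : ℤ) ∣ z := (ZMod.intCast_zmod_eq_zero_iff_dvd z l').mp h6
  have h10 : l' ≤ z.natAbs := Nat.le_of_dvd (Int.natAbs_pos.mpr hz0) (Int.natCast_dvd.mp h9)
  have h11 : z.natAbs < l' := (le_max_right _ _).trans_lt hlt
  omega

end Pool.Agent.Helper34.REC
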